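import Mathlib

/-!
# Models of ZFC with standard natural numbers, their real numbers and outer measures
-/

open MeasureTheory Set

namespace Pool.Agent.FL

universe v

/-! ## Formulas of set theory and models of ZFC -/

/-- Formulas of the language of set theory, with variables indexed by natural numbers. -/
inductive Fml : Type
  | mem : ℕ → ℕ → Fml
  | eq : ℕ → ℕ → Fml
  | bot : Fml
  | imp : Fml → Fml → Fml
  | all : ℕ → Fml → Fml

/-- Satisfaction of a formula in the structure `(M, E)` under an assignment. -/
def Fml.sat {M : Type v} (E : M → M → Prop) : Fml → (ℕ → M) → Prop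
  | .mem i j, s => E (s i) (s j)
  | .eq i j, s => s i = s j
  | .bot, _ => False
  | .imp φ ψ, s => φ.sat E s → ψ.sat E s
  | .all i φ, s => ∀ a : M, φ.sat E (Function.update s i a)

/-- `(M, E)` is a model of ZFC.  The axiom schemes of separation and replacement are stated for all
formulas of the language of set theory with parameters. -/
structure IsZFC {M : Type v} (E : M → M → Prop) : Prop where
  /-- extensionality -/
  ext : ∀ a b : M, (∀ c, E c a ↔ E c b) → a = b
  /-- foundation -/
  found : ∀ a : M, (∃ c, E c a) → ∃ c, E c a ∧ ∀ d, E d c → ¬ E d a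
  /-- pairing -/
  pair : ∀ a b : M, ∃ c, ∀ d, E d c ↔ d = a ∨ d = b
  /-- union -/
  union : ∀ a : M, ∃ b, ∀ d, E d b ↔ ∃ c, E c a ∧ E d c
  /-- power set -/
  power : ∀ a : M, ∃ b, ∀ d, E d b ↔ ∀ c, E c d → E c a
  /-- infinity -/
  infinity : ∃ w : M, (∃ e, E e w ∧ ∀ d, ¬ E d e) ∧
    ∀ x, E x w → ∃ y, E y w ∧ ∀ d, E d y ↔ E d x ∨ d = x
  /-- separation scheme -/
  sep : ∀ (φ : Fml) (s : ℕ → M) (a : M), ∃ b, ∀ c,
    E c b ↔ E c a ∧ φ.sat E (Function.update s 0 c)
  /-- replacement scheme -/
  repl : ∀ (φ : Fml) (s : ℕ → M) (a : M),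
    (∀ x, E x a → ∃! y, φ.sat E (Function.update (Function.update s 0 x) 1 y)) →
    ∃ b, ∀ y, E y b ↔ ∃ x, E x a ∧ φ.sat E (Function.update (Function.update s 0 x) 1 y)
  /-- choice: every set of pairwise disjoint nonempty sets has a transversal -/
  choice : ∀ a : M, (∀ x, E x a → ∃ y, E y x) →
    (∀ x x', E x a → E x' a → (∃ y, E y x ∧ E y x') → x = x') →
    ∃ c, ∀ x, E x a → ∃! y, E y x ∧ E y c

/-- `x` is the natural number `n` (von Neumann ordinal) of the structure `(M, E)`. -/
def IsNum {M : Type v} (E : M → M → Prop) : ℕ → M → Prop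
  | 0, x => ∀ y, ¬ E y x
  | n + 1, x => ∃ y, IsNum E n y ∧ ∀ z, E z x ↔ E z y ∨ z = y

/-- The set of natural numbers of the structure is standard: some element has exactly the standard
natural numbers as elements. -/
def OmegaStd {M : Type v} (E : M → M → Prop) : Prop := ∃ w : M, ∀ x, E x w ↔ ∃ n, IsNum E n x

/-- The element `a` of the structure is the set of natural numbers `S`. -/
def Codes {M : Type v} (E : M → M → Prop) (a : M) (S : Set ℕ) : Prop :=
  (∀ x, E x a → ∃ n, IsNum E n x) ∧ ∀ n x, IsNum E n x → (E x a ↔ n ∈ S)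

/-! ## Real numbers, sequences of intervals and outer measures of a structure -/

/-- Enumeration of the rational numbers. -/
def qe (n : ℕ) : ℚ := Denumerable.ofNat ℚ n

/-- The left cut of a real number, as a set of natural numbers. -/
def cutS (r : ℝ) : Set ℕ := {n | ((qe n : ℚ) : ℝ) < r}

/-- The graph of a sequence of rational intervals, as a set of natural numbers. -/
def grS (c : ℕ → ℚ × ℚ) : Set ℕ := {n | ∃ i, n = Nat.pair i (Encodable.encode (c i))}

/-- The union of the open intervals of the sequence. -/
def unI (c : ℕ → ℚ × ℚ) : Set ℝ := ⋃ n, Set.Ioo ((c n).1 : ℝ) ((c n).2 : ℝ)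

/-- The sum of the measures of the intervals of the sequence. -/
noncomputable def sumI (ν : Measure ℝ) (c : ℕ → ℚ × ℚ) : ENNReal :=
  ∑' n, ν (Set.Ioo ((c n).1 : ℝ) ((c n).2 : ℝ))

/-- The element `A` of the structure is a set of real numbers (coded by their left cuts). -/
def IsRealSet {M : Type v} (E : M → M → Prop) (A : M) : Prop :=
  ∀ x, E x A → ∃ r : ℝ, Codes E x (cutS r)

/-- The real numbers belonging to the element `A` of the structure. -/
def realsOf {M : Type v} (E : M → M → Prop) (A : M) : Set ℝ :=
  {r | ∃ x, E x A ∧ Codes E x (cutS r)}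

/-- In the structure, the outer measure of the set of reals `Y` is positive: for some `ε > 0`, no
sequence of rational intervals belonging to the structure and with total measure less than `ε`
covers `Y`. -/
def PosOuter {M : Type v} (E : M → M → Prop) (ν : Measure ℝ) (Y : Set ℝ) : Prop :=
  ∃ ε : ENNReal, 0 < ε ∧ ∀ c : ℕ → ℚ × ℚ, (∃ a, Codes E a (grS c)) → Y ⊆ unI c → ε ≤ sumI ν c

/-- The set of natural numbers coding a measure on the real line: the triples `(a, b, c)` of
rational numbers with `c < ν (a, b)`. -/
def measS (ν : Measure ℝ) : Set ℕ :=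
  {n | ∃ a b c : ℚ, n = Encodable.encode (a, b, c) ∧ ENNReal.ofReal c < ν (Set.Ioo (a : ℝ) b)}

/-- The set of natural numbers coding a double sequence of rational intervals. -/
def coverS (c : ℕ → ℕ → ℚ × ℚ) : Set ℕ := {n | ∃ k i : ℕ, n = Encodable.encode (k, i, c k i)}

/-- The double sequence of rational intervals witnesses that `ν` is a probability measure which is
singular: for every `k`, the intervals `c k i` have total length at most `(1 / 2) ^ k`, and their
union has measure `1`. -/
def SingW (ν : Measure ℝ) (c : ℕ → ℕ → ℚ × ℚ) : Prop :=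
  ∀ k, sumI volume (c k) ≤ (1 / 2) ^ k ∧ ν (unI (c k)) = 1

end Pool.Agent.FL
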