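import Pool.Agent.Helper93_FL.BStmts
import Pool.Agent.Helper93_FL.AStmts

/-!
# Part C: the singular measure, digits, names of reals: definitions and statements
-/

open MeasureTheory Set

namespace Pool.Agent.FL

/-! ## Digits and the measure -/

/-- Length of a block at level `m`. -/
def Lb (m : ℕ) : ℕ := 2 ^ m * sz m

/-- Base of the mixed radix expansion at level `m`. -/
def bs (m : ℕ) : ℕ := Lb m * 2 ^ Lb m

/-- The digit `x` at level `m` belongs to the half set: `x = w * Lb m + z` with `z < Lb m`, and the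
binary digit number `z` of `w` is one. -/
def inJ (m x : ℕ) : Prop := x < bs m ∧ Nat.testBit (x / Lb m) (x % Lb m) = true

/-- A fixed element of the half set. -/
def s0 (m : ℕ) : ℕ := (2 ^ Lb m - 1) * Lb m

/-- The real number with mixed radix digits `c`. -/
noncomputable def Dr (c : ℕ → ℕ) : ℝ := ∑' m, (c m : ℝ) / ∏ i ∈ Finset.range (m + 1), (bs i : ℝ)

/-- Digit sequences of real numbers in `[0,1]`. -/
abbrev Dg := (m : ℕ) → Fin (bs m)

/-- The real number of a digit sequence. -/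
noncomputable def DrD (c : Dg) : ℝ := Dr (fun m => (c m).val)

/-- The real number of a branch (digits below `sz m`). -/
noncomputable def DrB (t : Br) : ℝ := Dr (fun m => (t m).val)

/-- Uniform probability on the half set of level `m`. -/
noncomputable def unifJ (m : ℕ) : Measure (Fin (bs m)) :=
  (Measure.count {x : Fin (bs m) | inJ m x.val})⁻¹ •
    Measure.count.restrict {x : Fin (bs m) | inJ m x.val}

/-- Uniform law on all digit sequences. -/
noncomputable def mL : Measure Dg := Measure.infinitePi (fun m => unifM (bs m))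

/-- Law of independent uniform digits in the half sets. -/
noncomputable def mJ : Measure Dg := Measure.infinitePi (fun m => unifJ m)

/-- The singular measure on the real line. -/
noncomputable def muR : Measure ℝ := mJ.map DrD

/-! ## The modified tree -/

/-- At the node `σ` at least one third of the successors `a` satisfy `x + a ∈ J`. -/
def aliveAt (T : Set Node) (x : Dg) (σ : Node) : Prop := by
  classical exact (suc T σ).card ≤
    3 * ((suc T σ).filter (fun a => inJ σ.length ((x σ.length).val + a))).card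

/-- Subtree above `τ` where, at all nodes which are alive, only the successors `a` with
`x + a ∈ J` are kept. -/
def hatT (T : Set Node) (τ : Node) (x : Dg) : Set Node :=
  {σ | σ ∈ sub T τ ∧ ∀ m, τ.length ≤ m → ∀ h : m < σ.length, aliveAt T x (σ.take m) →
    inJ m ((x m).val + σ[m])}

/-- All nodes of the branch beyond level `n` are alive. -/
def alive (T : Set Node) (n : ℕ) (x : Dg) (t : Br) : Prop := ∀ m, n ≤ m → aliveAt T x (pre t m)

theorem bs_pos (m : ℕ) : 0 < bs m := by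
  unfold bs Lb
  have := sz_pos m
  positivity

/-- The digit sequence `s0, ..., s0, x n + t n, x (n+1) + t (n+1), ...`. -/
def cD (n : ℕ) (x : Dg) (t : Br) : Dg := fun m =>
  ⟨(if m < n then s0 m else (x m).val + (t m).val) % bs m, Nat.mod_lt _ (bs_pos m)⟩

/-! ## Statements: measure part -/

/-- R0: the measure `muR` and digits of real numbers. -/
def R0Stmt : Prop :=
  IsProbabilityMeasure muR ∧ NullSingletonClass muR ∧ muR ⟂ₘ (volume : Measure ℝ) ∧
  IsProbabilityMeasure mL ∧ IsProbabilityMeasure mJ ∧ Measurable DrD ∧ Measurable DrB ∧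
  ∃ dg : ℝ → Dg, Measurable dg ∧ (∀ x ∈ Set.Ico (0 : ℝ) 1, DrD (dg x) = x) ∧
    ∀ A : Set Dg, MeasurableSet A → mL A = 0 → volume {x : ℝ | dg (Int.fract x) ∈ A} = 0

/-- R0b: addition of digits without carry. -/
def R0bStmt : Prop :=
  ∀ (n : ℕ) (x : Dg) (t : Br), (∀ m, n ≤ m → (x m).val + (t m).val < bs m) →
    DrD x + DrB t + (∑ m ∈ Finset.range n, ((s0 m : ℝ) - (x m).val - (t m).val) /
      ∏ i ∈ Finset.range (m + 1), (bs i : ℝ)) = DrD (cD n x t)

open Classical in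
/-- R1: the half sets are pairwise independent up to a summable error. -/
def R1Stmt : Prop :=
  (∀ m, inJ m (s0 m)) ∧
  (∀ m, 2 * ((Finset.range (bs m)).filter (inJ m)).card = bs m) ∧
  (∀ m, (sz m : ℝ) / Lb m ≤ (1 / 2) ^ m) ∧
  ∀ m (A : Finset ℕ), (∀ a ∈ A, a < sz m) →
    (∑ x ∈ Finset.range (bs m), ((A.filter (fun a => inJ m (x + a))).card : ℝ) ≤
      (bs m : ℝ) * ((A.card : ℝ) / 2)) ∧
    ((bs m : ℝ) * ((A.card : ℝ) * (1 / 2 - (1 / 2) ^ m)) ≤
      ∑ x ∈ Finset.range (bs m), ((A.filter (fun a => inJ m (x + a))).card : ℝ)) ∧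
    (∑ x ∈ Finset.range (bs m),
      (((A.filter (fun a => inJ m (x + a))).card : ℝ) - (A.card : ℝ) / 2) ^ 2 ≤
      (bs m : ℝ) * ((A.card : ℝ) / 2 + 2 * (A.card : ℝ) ^ 2 * (1 / 2) ^ m))

/-- R2: facts on the modified tree. -/
def R2Stmt : Prop :=
  (∀ T τ x, Good T → τ ∈ T → Good (hatT T τ x) ∧ hatT T τ x ⊆ sub T τ) ∧
  (∀ T τ x t, Good T → τ ∈ T → t ∈ body (hatT T τ x) → alive T τ.length x t →
    ∀ m, τ.length ≤ m → inJ m ((x m).val + (t m).val)) ∧
  (∀ τ, Measurable (fun z : Set Node × Dg => hatT z.1 τ z.2)) ∧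
  (∀ n, MeasurableSet {z : (Set Node × Dg) × Br | alive z.1.1 n z.1.2 z.2}) ∧
  (∀ n, Measurable (fun z : Dg × Br => cD n z.1 z.2))

/-- R3: absolute continuity. -/
def R3Stmt : Prop :=
  ∀ T, Good T → ∀ τ ∈ T, NormGE T τ.length 2 → ∀ N : Set (Br × Dg), MeasurableSet N →
    (∀ t, mJ {c | (t, c) ∈ N} = 0) →
    ∀ᵐ x ∂mL, mU {w | alive T τ.length x (phi (hatT T τ x) w) ∧
      (phi (hatT T τ x) w, cD τ.length x (phi (hatT T τ x) w)) ∈ N} = 0

/-- R4: positive probability of staying alive. -/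
def R4Stmt : Prop :=
  ∀ T, Good T → ∀ᵐ x ∂mL, ∃ τ ∈ T, NormGE T τ.length 2 ∧
    mU {w | alive T τ.length x (phi (hatT T τ x) w)} ≠ 0

open Classical in
/-- The random continuation of the partial point `y` on `J`. -/
noncomputable def Cond.XJ {I : Type} [LinearOrder I] [WellFoundedLT I] (p : Cond I) (J : Set I)
    (y : Pt I) (v : I → Rd) : Pt I :=
  (wellFounded_lt (α := I)).fix (fun i ih => if i ∈ J then y i else
    phi (p.T i (fun j => if h : j < i then ih j h else fun m => ⟨0, sz_pos m⟩)) (v i))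

/-- R5: facts on the random continuation. -/
def R5Stmt : Prop :=
  ∀ (I : Type) [LinearOrder I] [WellFoundedLT I] (p : Cond I) (J : Set I), IsLowerSet J →
    (∀ y v, ∀ i ∈ J, p.XJ J y v i = y i) ∧
    (∀ y v i, i ∉ J → p.XJ J y v i = phi (p.T i (p.XJ J y v)) (v i)) ∧
    (∀ y v, (∀ i ∈ J, y i ∈ body (p.T i y)) → p.XJ J y v ∈ p.body) ∧
    (∀ u, p.XJ J (p.X u) u = p.X u) ∧
    (∀ y y' v v', (∀ i ∈ J, y i = y' i) → (∀ i, i ∉ J → v i = v' i) →
      p.XJ J y v = p.XJ J y' v') ∧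
    Measurable (fun z : Pt I × (I → Rd) => p.XJ J z.1 z.2)

/-- R6 (core): one step of the iteration detects. -/
def CoreStmt : Prop :=
  ∀ (I : Type) [LinearOrder I] [WellFoundedLT I] (p : Cond I) (α : I) (N : Set (Pt I × ℝ)),
    MeasurableSet N → (∀ y, muR {x | (y, x) ∈ N} = 0) →
    ∃ Z : Set (Pt I × ℝ), MeasurableSet Z ∧ (∀ x : ℝ, DepOn (Set.Iio α) {y | (y, x) ∈ Z}) ∧
      (∀ y, volume {x | (y, x) ∈ Z} = 0) ∧
      ∀ r : Cond I, r ≤ p.restr (Set.Iio α) → r.Below (Set.Iio α) → ∀ f : Pt I → ℝ,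
        Measurable f → DepFun (Set.Iio α) f → (∀ y ∈ r.body, (y, f y) ∉ Z) →
        ∃ q ≤ p, q ≤ r ∧ ∃ c : ℚ, ∀ y ∈ q.body, (y, f y + DrB (y α) + c) ∉ N

/-- The index set of the iteration: the successor cardinal of the continuum. -/
abbrev Ix : Type := (Order.succ Cardinal.continuum.{0}).ord.ToType

/-- R7: counting. -/
def CountStmt : Prop :=
  ∀ β : Ix, Cardinal.mk {r : Cond Ix // r.S ⊆ Set.Iio β} ≤ Cardinal.continuum ∧
    Cardinal.mk {Z : Set (Pt Ix × ℝ) // MeasurableSet Z ∧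
      ∀ x : ℝ, DepOn (Set.Iio β) {y | (y, x) ∈ Z}} ≤ Cardinal.continuum

/-- R8: closure points of cofinality `ω₁`. -/
def ClosStmt : Prop :=
  (∀ (ι : Type), Cardinal.mk ι ≤ Cardinal.continuum → ∀ h : ι → Ix, ∃ b : Ix, ∀ i, h i < b) ∧
  ∀ (g : Ix → Ix) (β0 : Ix), ∃ α : Ix, β0 < α ∧ (∀ β < α, g β < α) ∧
    ∀ C : Set Ix, C ⊆ Set.Iio α → C.Countable → ∃ β < α, C ⊆ Set.Iio β

/-- R9: every name of a non-null set is detected. -/
def CTStmt : Prop :=
  ∀ rel : Cond Ix → (Pt Ix → ℝ) → Prop, (∀ p q f, q ≤ p → rel p f → rel q f) →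
    ∀ p : Cond Ix,
    (∀ p' ≤ p, ∀ Z : Set (Pt Ix × ℝ), MeasurableSet Z → (∀ y, volume {x | (y, x) ∈ Z} = 0) →
      ∃ q ≤ p', ∃ f : Pt Ix → ℝ, Measurable f ∧ rel q f ∧ ∀ y ∈ q.body, (y, f y) ∉ Z) →
    ∃ α : Ix, ∀ p' ≤ p, ∀ N : Set (Pt Ix × ℝ), MeasurableSet N →
      (∀ y, muR {x | (y, x) ∈ N} = 0) →
      ∃ q ≤ p', ∃ f : Pt Ix → ℝ, Measurable f ∧ rel q f ∧
        ∃ c : ℚ, ∀ y ∈ q.body, (y, f y + DrB (y α) + c) ∉ N

end Pool.Agent.FL
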