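import Pool.Agent.Helper93_FL.Public

/-!
# Boolean valued universe, formulas of set theory, models of ZFC: definitions
-/

namespace Pool.Agent.FL

universe u v

/-! ## The Boolean valued universe -/

/-- Names over the Boolean algebra `B`. -/
inductive BSet (B : Type u) : Type (u + 1)
  | mk (α : Type u) (A : α → BSet B) (b : α → B) : BSet B

variable {B : Type u} [CompleteBooleanAlgebra B]

/-- Boolean value of equality. -/
noncomputable def beq : BSet B → BSet B → B
  | .mk _ A b, .mk _ A' b' =>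
    (⨅ i, b i ⇨ ⨆ j, b' j ⊓ beq (A i) (A' j)) ⊓ (⨅ j, b' j ⇨ ⨆ i, b i ⊓ beq (A i) (A' j))

/-- Boolean value of membership. -/
noncomputable def bmem (x : BSet B) : BSet B → B
  | .mk _ A b => ⨆ i, b i ⊓ beq x (A i)

/-- Boolean value of a formula. -/
noncomputable def Fml.val : Fml → (ℕ → BSet B) → B
  | .mem i j, s => bmem (s i) (s j)
  | .eq i j, s => beq (s i) (s j)
  | .bot, _ => ⊥
  | .imp φ ψ, s => φ.val s ⇨ ψ.val s
  | .all i φ, s => ⨅ a : BSet B, φ.val (Function.update s i a)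

/-- The name of the natural number `n`. -/
def nn (B : Type u) [CompleteBooleanAlgebra B] : ℕ → BSet B
  | 0 => .mk PEmpty (fun x => x.elim) (fun x => x.elim)
  | n + 1 => .mk (ULift (Fin (n + 1))) (fun i => nn B i.down.val) (fun _ => ⊤)
decreasing_by exact i.down.isLt

/-- The name of a subset of the natural numbers with given Boolean values. -/
def sb (b : ℕ → B) : BSet B := .mk (ULift ℕ) (fun n => nn B n.down) (fun n => b n.down)

/-- The name of the set of natural numbers. -/
def om (B : Type u) [CompleteBooleanAlgebra B] : BSet B := sb (fun _ => (⊤ : B))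

/-! ## Statements of part A -/

/-- All axioms of ZFC have Boolean value `⊤`; it is convenient to state them for the truth set `G`
on a set `N` of names which is closed enough: this is the model existence theorem. -/
def ModelStatement : Prop :=
  ∀ (B : Type) [CompleteBooleanAlgebra B] (N : Set (BSet B)) (G : Set B),
    N.Countable → om B ∈ N → (∀ n, nn B n ∈ N) →
    (∀ b ∈ G, ∀ c, b ≤ c → c ∈ G) → (∀ b ∈ G, ∀ c ∈ G, b ⊓ c ∈ G) → ⊥ ∉ G →
    (∀ (φ : Fml) (s : ℕ → BSet B), (∀ i, s i ∈ N) → φ.val s ∈ G ∨ (φ.val s)ᶜ ∈ G) →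
    (∀ (φ : Fml) (s : ℕ → BSet B) (i : ℕ), (∀ j, s j ∈ N) →
      (⨆ a : BSet B, φ.val (Function.update s i a)) ∈ G →
      ∃ a ∈ N, φ.val (Function.update s i a) ∈ G) →
    (∀ a ∈ N, bmem a (om B) ∈ G → ∃ n, beq a (nn B n) ∈ G) →
    ∃ (M : Type) (E : M → M → Prop) (π : BSet B → M), IsZFC E ∧ OmegaStd E ∧
      (∀ m : M, ∃ a ∈ N, π a = m) ∧
      (∀ a ∈ N, ∀ b ∈ N, (π a = π b ↔ beq a b ∈ G)) ∧
      (∀ a ∈ N, ∀ b ∈ N, (E (π a) (π b) ↔ bmem a b ∈ G)) ∧
      (∀ n, IsNum E n (π (nn B n)))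

end Pool.Agent.FL
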