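import Pool.Agent.Helper93_FL.Base

/-!
# Statements of part B (trees, randomised branches, positive measure sets contain conditions)
-/

open MeasureTheory Set

namespace Pool.Agent.FL

/-- The closed set of randomness described by a set of nodes. -/
def bodyR (Q : Set Node) : Set Rd := {w | ∀ m, pre w m ∈ Q}

/-- B1: the randomised branch of a tree.  The probability of passing through the node `σ` of `T` is
the product of the inverses of the numbers of successors. -/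
def PhiStmt : Prop :=
  (∀ T, Good T → ∀ w m, pre (phi T w) m = phiN T w m) ∧
  (∀ T, Good T → ∀ w, phi T w ∈ body T) ∧
  (∀ T, Good T → ∀ w w' : Rd, ∀ m, (∀ i < m, w i = w' i) → pre (phi T w) m = pre (phi T w') m) ∧
  Measurable (fun x : Set Node × Rd => phi x.1 x.2) ∧
  (∀ T, Good T → ∀ σ ∈ T, mU {w | pre (phi T w) σ.length = σ} =
    ∏ i ∈ Finset.range σ.length, ((suc T (σ.take i)).card : ENNReal)⁻¹)

open Classical in
/-- Replace the coordinates outside of `J` of `u` by those of `v` (for the randomness). -/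
noncomputable def glueR {I : Type} (J : Set I) (u v : I → Rd) : I → Rd := fun i =>
  if i ∈ J then u i else v i

/-- B2: the product measures; independent resampling of coordinates. -/
def ProdStmt : Prop :=
  IsProbabilityMeasure mU ∧
  ∀ (I : Type), IsProbabilityMeasure (mP I) ∧
    (∀ J : Set I, ((mP I).prod (mP I)).map (fun x => glueR J x.1 x.2) = mP I) ∧
    (∀ [DecidableEq I] (j : I),
      ((mP I).prod mU).map (fun x => Function.update x.1 j x.2) = mP I)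

/-- B3: a measurable set of randomness of positive measure contains a closed set of positive measure,
and this closed set contains a set defined by closed conditions on the coordinates, one after
the other, all of positive measure. -/
def WStmt : Prop :=
  ∀ (I : Type) [LinearOrder I] [WellFoundedLT I] (A : Set (I → Rd)), MeasurableSet A →
    mP I A ≠ 0 →
    ∃ S0 : Set I, S0.Countable ∧ ∃ W : I → (I → Rd) → Set Node,
      (∀ j, j ∉ S0 → ∀ u, W j u = Set.univ) ∧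
      (∀ j u u', (∀ i ∈ S0, i < j → u i = u' i) → W j u = W j u') ∧
      (∀ j, Measurable (W j)) ∧
      (∀ j u, (∀ i < j, u i ∈ bodyR (W i u)) → mU (bodyR (W j u)) ≠ 0) ∧
      (∀ u, (∀ j, u j ∈ bodyR (W j u)) → u ∈ A)

/-- B4: thinning of one tree, in a measurable way. -/
def ThinStmt : Prop :=
  ∃ G : Set Node → Set Node → Set Node,
    Measurable (fun x : Set Node × Set Node => G x.1 x.2) ∧
    ∀ T H, Good T → mU {w | ∀ m, pre (phi T w) m ∈ H} ≠ 0 →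
      Good (G T H) ∧ G T H ⊆ T ∧ ∀ t ∈ body (G T H), ∀ m, pre t m ∈ H

/-- B5: measurable selection of the randomness producing a given branch. -/
def SelStmt : Prop :=
  ∃ (H : Set Node → Set Node → Set Node) (Sel : Set Node → Set Node → Br → Rd),
    Measurable (fun x : Set Node × Set Node => H x.1 x.2) ∧
    Measurable (fun x : (Set Node × Set Node) × Br => Sel x.1.1 x.1.2 x.2) ∧
    ∀ T W, Good T → (∀ w ∈ bodyR W, ∀ m, pre (phi T w) m ∈ H T W) ∧
      ∀ t : Br, (∀ m, pre t m ∈ H T W) → Sel T W t ∈ bodyR W ∧ phi T (Sel T W t) = t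

/-- B6: the random point of a condition. -/
def XStmt : Prop :=
  ∀ (I : Type) [LinearOrder I] [WellFoundedLT I] (p : Cond I),
    (∀ u i, p.X u i = phi (p.T i (p.X u)) (u i)) ∧
    (∀ u, p.X u ∈ p.body) ∧
    (∀ (J : Set I), IsLowerSet J → ∀ u u', (∀ i ∈ J, u i = u' i) → ∀ i ∈ J, p.X u i = p.X u' i) ∧
    Measurable p.X

/-- B7 (key lemma): a measurable set of positive measure contains a stronger condition. -/
def PMStmt : Prop :=
  ∀ (I : Type) [LinearOrder I] [WellFoundedLT I] (p : Cond I) (A : Set (Pt I)),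
    MeasurableSet A → mP I {u | p.X u ∈ A} ≠ 0 → ∃ q ≤ p, q.body ⊆ A

/-! ### Statements of the forcing combinatorics -/

/-- Essential decision lemma with norm control (conditions below the lower set `J`). -/
def SL (I : Type) [LinearOrder I] (J : Set I) : Prop :=
  ∀ p : Cond I, p.Below J → ∀ F : Finset I, (F : Set I) ⊆ J → ∀ n k K' : ℕ, 1 ≤ k →
    (∀ j ∈ F, ∀ y ∈ p.body, NormGE (p.T j y) n k) →
    ∀ D : Set (Cond I), (∀ d ∈ D, d ≤ p ∧ d.Below J) → (∀ d ∈ D, ∀ e ≤ d, e.Below J → e ∈ D) →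
    (∀ q ≤ p, q.Below J → ∃ d ∈ D, d ≤ q) →
    ∃ q ≤ p, q.Below J ∧
      (∀ j ∈ F, ∀ y ∈ q.body, SameUpTo (q.T j y) (p.T j y) n ∧ NormGE (q.T j y) n (k - 1)) ∧
      (∃ n', ∀ j ∈ F, ∀ y ∈ q.body, NormGE (q.T j y) n' K') ∧
      ∃ E : Set (Cond I), E.Finite ∧ E ⊆ D ∧ q.body ⊆ ⋃ d ∈ E, d.body

/-- Countably many dense open sets can be met with countable (even finite) antichains. -/
def BRw (I : Type) [LinearOrder I] (J : Set I) : Prop :=
  ∀ p : Cond I, p.Below J → ∀ D : ℕ → Set (Cond I), (∀ i, ∀ d ∈ D i, d ≤ p ∧ d.Below J) →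
    (∀ i, ∀ d ∈ D i, ∀ e ≤ d, e.Below J → e ∈ D i) →
    (∀ i, ∀ q ≤ p, q.Below J → ∃ d ∈ D i, d ≤ q) →
    ∃ q ≤ p, q.Below J ∧ ∀ i, ∃ E : Set (Cond I), E.Finite ∧ E ⊆ D i ∧ q.body ⊆ ⋃ d ∈ E, d.body

/-- Introduction of a new coordinate in a fusion. -/
def INTRO (I : Type) [LinearOrder I] (J : Set I) : Prop :=
  ∀ p : Cond I, p.Below J → ∀ F : Finset I, (F : Set I) ⊆ J → ∀ j ∈ J, j ∉ F → ∀ n k : ℕ, 1 ≤ k →
    (∀ j' ∈ F, ∀ y ∈ p.body, NormGE (p.T j' y) n k) →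
    ∃ q ≤ p, q.Below J ∧
      (∀ j' ∈ F, ∀ y ∈ q.body, SameUpTo (q.T j' y) (p.T j' y) n ∧ NormGE (q.T j' y) n (k - 1)) ∧
      ∃ n' ≥ n, (∀ y ∈ q.body, NormGE (q.T j y) n' k) ∧
        ∀ j' ∈ F, ∀ y ∈ q.body, NormGE (q.T j' y) n' k

/-- Basic operations on conditions. -/
def ApiStmt : Prop :=
  ∀ (I : Type) [LinearOrder I] [WellFoundedLT I] (J : Set I), IsLowerSet J →
    (∀ (p : Cond I) y, y ∈ (p.restr J).body ↔ ∀ i ∈ J, y i ∈ body (p.T i y)) ∧
    (∀ p : Cond I, (p.restr J).Below J ∧ p ≤ p.restr J) ∧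
    (∀ p q : Cond I, q ≤ p → q.restr J ≤ p.restr J) ∧
    (∀ p : Cond I, p.Below J → DepOn J p.body ∧ p.restr J ≤ p) ∧
    (∀ r p : Cond I, r.Below J → r ≤ p.restr J →
      Cond.glue r p J ≤ p ∧ Cond.glue r p J ≤ r ∧ r ≤ (Cond.glue r p J).restr J ∧
      (∀ q, q ≤ r → q ≤ p → q ≤ Cond.glue r p J) ∧
      (∀ J' : Set I, J ⊆ J' → p.Below J' → (Cond.glue r p J).Below J')) ∧
    -- mixing: after `J` use the condition number `c y`
    (∀ (r : Cond I) (c : Pt I → ℕ), Measurable c → ∀ C : Set I, C.Countable → C ⊆ J →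
      DepFun C c → ∀ P : ℕ → Cond I, ∃ q : Cond I,
        (∀ i ∈ J, ∀ y, q.T i y = r.T i y) ∧ ∀ i, i ∉ J → ∀ y, q.T i y = (P (c y)).T i y) ∧
    -- a measurable set depending on `J` depends on a countable subset of `J`
    (∀ A : Set (Pt I), MeasurableSet A → DepOn J A → ∃ C ⊆ J, C.Countable ∧ DepOn C A) ∧
    -- two points agreeing on `J`
    (∀ p : Cond I, ∀ y, (∀ i ∈ J, y i ∈ body (p.T i y)) → ∃ y' ∈ p.body, ∀ i ∈ J, y' i = y i)

/-- Thinning to constant values (consequence of `PMStmt`). -/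
def ConstStmt : Prop :=
  ∀ (I : Type) [LinearOrder I] [WellFoundedLT I] (J : Set I), IsLowerSet J →
    ∀ p : Cond I, p.Below J →
    (∀ A : Set (Pt I), MeasurableSet A → DepOn J A →
      ∃ q ≤ p, q.Below J ∧ (q.body ⊆ A ∨ q.body ⊆ Aᶜ)) ∧
    (∀ A : ℕ → Set (Pt I), (∀ n, MeasurableSet (A n)) → (∀ n, DepOn J (A n)) →
      p.body ⊆ ⋃ n, A n → ∃ q ≤ p, q.Below J ∧ ∃ n, q.body ⊆ A n) ∧
    -- if no stronger condition is inside `A n`, one can avoid all the `A n`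
    (∀ A : ℕ → Set (Pt I), (∀ n, MeasurableSet (A n)) → (∀ n, DepOn J (A n)) →
      (∀ n, ∀ q ≤ p, q.Below J → ¬ q.body ⊆ A n) →
      ∃ q ≤ p, q.Below J ∧ ∀ n, q.body ⊆ (A n)ᶜ)

/-- The bad nodes argument at the last coordinate `j` of the control set. -/
def KLStmt : Prop :=
  ∀ (I : Type) [LinearOrder I] [WellFoundedLT I] (J : Set I), IsLowerSet J → ∀ j ∈ J,
    BRw I (Set.Iio j) → ∀ p : Cond I, p.Below J → ∀ n k K' : ℕ, 1 ≤ k →
    (∀ y ∈ p.body, NormGE (p.T j y) n k) →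
    ∀ D : Set (Cond I), (∀ d ∈ D, d ≤ p ∧ d.Below J) → (∀ d ∈ D, ∀ e ≤ d, e.Below J → e ∈ D) →
    (∀ q ≤ p, q.Below J → ∃ d ∈ D, d ≤ q) →
    ∀ r : Cond I, r ≤ p.restr (Set.Iio j) → r.Below (Set.Iio j) →
    ∃ r' ≤ r, r'.Below (Set.Iio j) ∧ ∃ p' ≤ p, p'.Below J ∧
      (∀ i < j, ∀ y, p'.T i y = r'.T i y) ∧
      (∀ y ∈ p'.body, SameUpTo (p'.T j y) (p.T j y) n ∧ NormGE (p'.T j y) n (k - 1)) ∧
      (∃ n', ∀ y ∈ p'.body, NormGE (p'.T j y) n' K') ∧
      ∃ E : Set (Cond I), E.Finite ∧ E ⊆ D ∧ p'.body ⊆ ⋃ d ∈ E, d.body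

def SLStepStmt : Prop :=
  ∀ (I : Type) [LinearOrder I] [WellFoundedLT I] (J : Set I), IsLowerSet J →
    (∀ j ∈ J, SL I (Set.Iio j)) → (∀ j ∈ J, BRw I (Set.Iio j)) → SL I J

def IntroStmt : Prop :=
  ∀ (I : Type) [LinearOrder I] [WellFoundedLT I] (J : Set I), IsLowerSet J →
    (∀ j ∈ J, SL I (Set.Iio j)) → INTRO I J

/-- Fusion inside a set `N` of conditions which is closed under the steps. -/
def FusStmt : Prop :=
  ∀ (I : Type) [LinearOrder I] [WellFoundedLT I] (J : Set I), IsLowerSet J →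
    ∀ (N : Set (Cond I)) (Ni : Set I) (D : ℕ → Set (Cond I)),
    (∀ q ∈ N, q.Below J) → (∀ q ∈ N, q.S ∩ J ⊆ Ni) → Ni ⊆ J →
    (∀ q ∈ N, ∀ F : Finset I, (F : Set I) ⊆ Ni → ∀ n k K' i : ℕ, 1 ≤ k →
      (∀ j ∈ F, ∀ y ∈ q.body, NormGE (q.T j y) n k) →
      ∃ q' ∈ N, q' ≤ q ∧
      (∀ j ∈ F, ∀ y ∈ q'.body, SameUpTo (q'.T j y) (q.T j y) n ∧ NormGE (q'.T j y) n (k - 1)) ∧
      (∃ n', ∀ j ∈ F, ∀ y ∈ q'.body, NormGE (q'.T j y) n' K') ∧
      ∃ E : Set (Cond I), E.Finite ∧ E ⊆ D i ∩ N ∧ q'.body ⊆ ⋃ d ∈ E, d.body) →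
    (∀ q ∈ N, ∀ F : Finset I, (F : Set I) ⊆ Ni → ∀ j ∈ Ni, j ∉ F → ∀ n k : ℕ, 1 ≤ k →
      (∀ j' ∈ F, ∀ y ∈ q.body, NormGE (q.T j' y) n k) →
      ∃ q' ∈ N, q' ≤ q ∧
      (∀ j' ∈ F, ∀ y ∈ q'.body,
        SameUpTo (q'.T j' y) (q.T j' y) n ∧ NormGE (q'.T j' y) n (k - 1)) ∧
      ∃ n' ≥ n, (∀ y ∈ q'.body, NormGE (q'.T j y) n' k) ∧
        ∀ j' ∈ F, ∀ y ∈ q'.body, NormGE (q'.T j' y) n' k) →
    ∀ p ∈ N, ∃ q ≤ p, q.Below J ∧
      ∀ i, ∃ E : Set (Cond I), E.Finite ∧ E ⊆ D i ∩ N ∧ q.body ⊆ ⋃ d ∈ E, d.body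

/-- Conclusion of the induction. -/
def IndStmt : Prop :=
  ∀ (I : Type) [LinearOrder I] [WellFoundedLT I] (J : Set I), IsLowerSet J →
    SL I J ∧ BRw I J ∧ INTRO I J

/-- Generic point over a countable hull: `W` is a type of objects, containing conditions (`cd`) and
coordinates (`ix`), `ops` are operations under which the hull `H` is closed, and `D i l` are dense
open sets of conditions attached to finite lists of objects. -/
def GplStmt : Prop :=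
  ∀ (I : Type) [LinearOrder I] [WellFoundedLT I] (W : Type 1) (cd : Cond I → W) (ix : I → W),
    Function.Injective cd → Function.Injective ix →
    ∀ (ops : ℕ → List W → W) (D : ℕ → List W → Set (Cond I)),
    (∀ i l, ∀ d ∈ D i l, ∀ e ≤ d, e ∈ D i l) → (∀ i l, ∀ q, ∃ d ∈ D i l, d ≤ q) →
    ∀ (p : Cond I) (W0 : Set W), W0.Countable →
    ∃ H : Set W, W0 ⊆ H ∧ H.Countable ∧ cd p ∈ H ∧
      (∀ i l, (∀ x ∈ l, x ∈ H) → ops i l ∈ H) ∧
      ∃ g ∈ p.body, ∀ i l, (∀ x ∈ l, x ∈ H) → ∃ d, cd d ∈ H ∧ d ∈ D i l ∧ g ∈ d.body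

end Pool.Agent.FL
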