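import Pool.Agent.Helper93_FL.Defs

/-!
# Forcing library: basic facts on trees and conditions
-/

open MeasureTheory Set

namespace Pool.Agent.FL

/-! ### Nodes and branches -/

section pre
variable {s : ℕ → ℕ}

@[simp] theorem pre_zero (t : (m : ℕ) → Fin (s m)) : pre t 0 = [] := rfl

theorem pre_succ (t : (m : ℕ) → Fin (s m)) (m : ℕ) : pre t (m + 1) = pre t m ++ [(t m).val] := by
  simp [pre, List.range_succ]

@[simp] theorem length_pre (t : (m : ℕ) → Fin (s m)) (m : ℕ) : (pre t m).length = m := by
  simp [pre]

theorem getElem_pre (t : (m : ℕ) → Fin (s m)) (m i : ℕ) (h : i < (pre t m).length) :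
    (pre t m)[i] = (t i).val := by
  have h0 : ∀ j k : ℕ, j = k → (t j).val = (t k).val := by rintro j _ rfl; rfl
  have h1 : (List.range m)[i]'(by simpa [pre] using h) = i := List.getElem_range _
  simp only [pre, List.getElem_map]
  exact h0 _ _ h1

theorem pre_isPrefix (t : (m : ℕ) → Fin (s m)) {m n : ℕ} (h : m ≤ n) : pre t m <+: pre t n := by
  induction n, h using Nat.le_induction with
  | base => exact List.prefix_rfl
  | succ n _ ih => rw [pre_succ]; exact ih.trans (List.prefix_append _ _)

theorem pre_eq_pre_iff {t t' : (m : ℕ) → Fin (s m)} {m : ℕ} :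
    pre t m = pre t' m ↔ ∀ i < m, t i = t' i := by
  simp [pre, Fin.ext_iff]

theorem take_pre (t : (m : ℕ) → Fin (s m)) {m n : ℕ} (h : m ≤ n) :
    (pre t n).take m = pre t m := by
  obtain ⟨l, hl⟩ := pre_isPrefix t h
  rw [← hl, List.take_append_of_le_length (by simp)]
  simp

theorem measurableSet_pre_eq (m : ℕ) (σ : Node) :
    MeasurableSet {t : (m : ℕ) → Fin (s m) | pre t m = σ} := by
  by_cases h : m = σ.length
  · have : {t : (m : ℕ) → Fin (s m) | pre t m = σ} =
        ⋂ i : Fin m, {t : (m : ℕ) → Fin (s m) | (t i).val = σ.getD i 0} := by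
      ext t
      simp only [Set.mem_ofPred_eq, Set.mem_iInter]
      constructor
      · rintro rfl i
        rw [List.getD_eq_getElem _ _ (by simp), getElem_pre]
      · intro hi
        apply List.ext_getElem
        · simpa using h
        · intro i h1 h2
          have := hi ⟨i, by simpa using h1⟩
          rw [getElem_pre, this, List.getD_eq_getElem _ _ h2]
    rw [this]
    refine MeasurableSet.iInter fun i => ?_
    have h2 : Measurable (fun t : (m : ℕ) → Fin (s m) => (t i).val) :=
      (measurable_of_countable _).comp (measurable_pi_apply _)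
    exact measurableSet_eq_fun h2 measurable_const
  · have : {t : (m : ℕ) → Fin (s m) | pre t m = σ} = ∅ := by
      ext t
      simp only [Set.mem_ofPred_eq, Set.mem_empty_iff_false, iff_false]
      rintro rfl
      simp at h
    rw [this]
    exact MeasurableSet.empty

end pre

/-- A branch from a list, continued by zeros. -/
def ofNode (σ : Node) : Br := fun i => ⟨σ.getD i 0 % sz i, Nat.mod_lt _ (sz_pos i)⟩

theorem pre_ofNode {σ : Node} (h : σ ∈ full) : pre (ofNode σ) σ.length = σ := by
  apply List.ext_getElem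
  · simp
  · intro i h1 h2
    rw [getElem_pre]
    simp [ofNode, h2, Nat.mod_eq_of_lt (h i h2)]

theorem pre_mem_full (t : Br) (m : ℕ) : pre t m ∈ full := by
  intro i hi
  rw [getElem_pre]
  exact (t i).isLt

@[simp] theorem body_full : body full = Set.univ :=
  Set.eq_univ_of_forall fun t m => pre_mem_full t m

/-! ### Trees -/

theorem Good.mem_of_isPrefix {T : Set Node} (hT : Good T) {σ τ : Node} (h : σ <+: τ) (hτ : τ ∈ T) :
    σ ∈ T := by
  obtain ⟨l, rfl⟩ := h
  induction l using List.reverseRecOn with
  | nil => simpa using hτ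
  | append_singleton l a ih =>
    rw [← List.append_assoc] at hτ
    exact ih (hT.down _ _ hτ)

theorem Good.mem_full {T : Set Node} (hT : Good T) {σ : Node} (h : σ ∈ T) : σ ∈ full := by
  induction σ using List.reverseRecOn with
  | nil => intro i hi; simp at hi
  | append_singleton l a ih => exact full_append' (ih (hT.down _ _ h)) (hT.bdd _ _ h)

theorem Good.mem_suc {T : Set Node} (hT : Good T) {σ : Node} {a : ℕ} :
    a ∈ suc T σ ↔ σ ++ [a] ∈ T := by
  rw [FL.mem_suc]
  exact ⟨fun h => h.2, fun h => ⟨hT.bdd _ _ h, h⟩⟩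

/-- Every node of a good tree lies on a branch. -/
theorem Good.exists_branch {T : Set Node} (hT : Good T) {σ : Node} (h : σ ∈ T) :
    ∃ t ∈ body T, pre t σ.length = σ := by
  classical
  -- next element
  let nx : Node → ℕ := fun τ => if hτ : (suc T τ).Nonempty then (suc T τ).min' hτ else 0
  have hnx : ∀ τ ∈ T, τ ++ [nx τ] ∈ T := by
    intro τ hτ
    have h1 := hT.ext τ hτ
    have : nx τ ∈ suc T τ := by
      simp only [nx, h1, dif_pos]
      exact Finset.min'_mem _ _
    exact hT.mem_suc.1 this
  let g : ℕ → Node := fun k => Nat.rec σ (fun _ τ => τ ++ [nx τ]) k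
  have hg : ∀ k, g k ∈ T ∧ (g k).length = σ.length + k ∧ σ <+: g k := by
    intro k
    induction k with
    | zero => exact ⟨h, by simp [g], List.prefix_rfl⟩
    | succ k ih =>
      refine ⟨hnx _ ih.1, ?_, ih.2.2.trans (List.prefix_append _ _)⟩
      change (g k ++ [nx (g k)]).length = _
      simp [ih.2.1]; omega
  have hmono : ∀ k l, k ≤ l → g k <+: g l := by
    intro k l hkl
    induction l, hkl using Nat.le_induction with
    | base => exact List.prefix_rfl
    | succ n _ ih => exact ih.trans (List.prefix_append _ _)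
  let t : Br := fun i => ⟨(g (i + 1)).getD i 0 % sz i, Nat.mod_lt _ (sz_pos i)⟩
  have hgf : ∀ k, g k ∈ full := by
    intro k
    have : ∀ τ ∈ T, τ ∈ full := by
      intro τ
      induction τ using List.reverseRecOn with
      | nil => intro _ i hi; simp at hi
      | append_singleton l a ih => intro hl; exact full_append' (ih (hT.down _ _ hl)) (hT.bdd _ _ hl)
    exact this _ (hg k).1
  have key : ∀ m k, m ≤ σ.length + k → pre t m = (g k).take m := by
    intro m k hmk
    apply List.ext_getElem
    · simp [(hg k).2.1]; omega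
    · intro i h1 h2
      have h3 : i < m := by simpa using h1
      rw [getElem_pre, List.getElem_take]
      have h4 : i < (g k).length := by rw [(hg k).2.1]; omega
      have h5 : i < (g (i + 1)).length := by have := (hg (i + 1)).2.1; omega
      simp only [t, List.getD_eq_getElem _ _ h5]
      rw [Nat.mod_eq_of_lt (hgf (i + 1) i h5)]
      rcases le_total k (i + 1) with hk | hk
      · exact ((hmono _ _ hk).getElem h4).symm
      · exact (hmono _ _ hk).getElem h5
  refine ⟨t, fun m => ?_, ?_⟩
  · rw [key m m (by omega)]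
    exact hT.mem_of_isPrefix (List.take_prefix _ _) (hg m).1
  · rw [key σ.length 0 (by omega)]
    simp [g]

theorem Good.body_nonempty {T : Set Node} (hT : Good T) : (body T).Nonempty := by
  obtain ⟨t, ht, _⟩ := hT.exists_branch hT.nil
  exact ⟨t, ht⟩

theorem body_mono {T T' : Set Node} (h : T ⊆ T') : body T ⊆ body T' := fun _ ht m => h (ht m)

theorem Good.subset_of_body {T T' : Set Node} (hT : Good T) (h : body T ⊆ body T') : T ⊆ T' := by
  intro σ hσ
  obtain ⟨t, ht, h1⟩ := hT.exists_branch hσ
  rw [← h1]
  exact h ht _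

/-! ### Measurability -/

theorem measurableSet_mem_node (σ : Node) : MeasurableSet {T : Set Node | σ ∈ T} :=
  measurableSet_setOfPred.2 (measurable_set_mem σ)

/-- Joint measurability of membership of the initial segments of a branch in a tree. -/
theorem measurableSet_pre_mem {Ω : Type*} [MeasurableSpace Ω] {f : Ω → Br} {T : Ω → Set Node}
    (hf : Measurable f) (hT : Measurable T) (m : ℕ) : MeasurableSet {ω | pre (f ω) m ∈ T ω} := by
  have : {ω | pre (f ω) m ∈ T ω} = ⋃ σ : Node, {ω | pre (f ω) m = σ} ∩ {ω | σ ∈ T ω} := by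
    ext ω
    simp
  rw [this]
  exact MeasurableSet.iUnion fun σ =>
    (hf (measurableSet_pre_eq m σ)).inter (hT (measurableSet_mem_node σ))

theorem measurableSet_mem_body {Ω : Type*} [MeasurableSpace Ω] {f : Ω → Br} {T : Ω → Set Node}
    (hf : Measurable f) (hT : Measurable T) : MeasurableSet {ω | f ω ∈ body (T ω)} := by
  have : {ω | f ω ∈ body (T ω)} = ⋂ m, {ω | pre (f ω) m ∈ T ω} := by
    ext ω
    simp [body]
  rw [this]
  exact MeasurableSet.iInter fun m => measurableSet_pre_mem hf hT m

theorem measurableSet_suc_eq (σ : Node) (A : Finset ℕ) :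
    MeasurableSet {T : Set Node | suc T σ = A} := by
  have : {T : Set Node | suc T σ = A} =
      ⋂ a : ℕ, {T : Set Node | (a < sz σ.length ∧ σ ++ [a] ∈ T) ↔ a ∈ A} := by
    ext T
    simp only [Set.mem_ofPred_eq, Set.mem_iInter, Finset.ext_iff, mem_suc]
  rw [this]
  refine MeasurableSet.iInter fun a => ?_
  by_cases h1 : a < sz σ.length <;> by_cases h2 : a ∈ A <;> simp only [h1, h2, true_and,
    false_and, iff_true, iff_false]
  · exact measurableSet_mem_node _
  · exact (measurableSet_mem_node _).compl
  · exact MeasurableSet.empty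
  · exact MeasurableSet.univ

theorem measurableSet_card_suc (σ : Node) (p : ℕ → Prop) :
    MeasurableSet {T : Set Node | p (suc T σ).card} := by
  have : {T : Set Node | p (suc T σ).card} =
      ⋃ A : {A : Finset ℕ // p A.card}, {T : Set Node | suc T σ = A.1} := by
    ext T
    simp
  rw [this]
  exact MeasurableSet.iUnion fun A => measurableSet_suc_eq σ A.1

theorem measurableSet_normGE (n k : ℕ) : MeasurableSet {T : Set Node | NormGE T n k} := by
  have : {T : Set Node | NormGE T n k} = ⋂ σ : Node, {T : Set Node | σ ∈ T → n ≤ σ.length →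
      (σ.length + 2) ^ k ≤ (suc T σ).card} := by
    ext T
    simp [NormGE]
  rw [this]
  refine MeasurableSet.iInter fun σ => ?_
  by_cases h : n ≤ σ.length
  · have h2 : {T : Set Node | σ ∈ T → n ≤ σ.length → (σ.length + 2) ^ k ≤ (suc T σ).card} =
        {T : Set Node | σ ∈ T}ᶜ ∪ {T : Set Node | (σ.length + 2) ^ k ≤ (suc T σ).card} := by
      ext T
      simp only [Set.mem_ofPred_eq, h, true_imp_iff, Set.mem_union, Set.mem_compl_iff]
      tauto
    rw [h2]
    exact (measurableSet_mem_node σ).compl.union (measurableSet_card_suc σ (fun c => _ ≤ c))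
  · simp [h]

theorem measurableSet_good : MeasurableSet {T : Set Node | Good T} := by
  have : {T : Set Node | Good T} = {T : Set Node | [] ∈ T} ∩
      (⋂ σ : Node, ⋂ a : ℕ, {T : Set Node | σ ++ [a] ∈ T → σ ∈ T}) ∩
      (⋂ σ : Node, ⋂ a : ℕ, {T : Set Node | σ ++ [a] ∈ T → a < sz σ.length}) ∩
      (⋂ σ : Node, {T : Set Node | σ ∈ T → 0 < (suc T σ).card}) ∩
      (⋂ k : ℕ, ⋃ m : ℕ, {T : Set Node | NormGE T m k}) := by
    ext T
    simp only [Set.mem_inter_iff, Set.mem_iInter, Set.mem_iUnion, Set.mem_ofPred_eq]
    constructor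
    · intro h
      exact ⟨⟨⟨⟨h.nil, h.down⟩, h.bdd⟩, fun σ hσ => Finset.card_pos.2 (h.ext σ hσ)⟩, h.norm⟩
    · rintro ⟨⟨⟨⟨h1, h2⟩, h3⟩, h4⟩, h5⟩
      exact ⟨h1, h2, h3, fun σ hσ => Finset.card_pos.1 (h4 σ hσ), h5⟩
  rw [this]
  have himp : ∀ (A B : Set (Set Node)), MeasurableSet A → MeasurableSet B →
      MeasurableSet {T | T ∈ A → T ∈ B} := by
    intro A B hA hB
    have : {T | T ∈ A → T ∈ B} = Aᶜ ∪ B := by
      ext T
      simp only [Set.mem_ofPred_eq, Set.mem_union, Set.mem_compl_iff]
      tauto
    rw [this]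
    exact hA.compl.union hB
  refine (((MeasurableSet.inter (measurableSet_mem_node _) ?_).inter ?_).inter ?_).inter ?_
  · exact MeasurableSet.iInter fun σ => MeasurableSet.iInter fun a =>
      himp _ _ (measurableSet_mem_node _) (measurableSet_mem_node _)
  · refine MeasurableSet.iInter fun σ => MeasurableSet.iInter fun a => ?_
    by_cases h : a < sz σ.length
    · simp [h]
    · have : {T : Set Node | σ ++ [a] ∈ T → a < sz σ.length} = {T : Set Node | σ ++ [a] ∈ T}ᶜ := by
        ext T
        simp [h]
      rw [this]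
      exact (measurableSet_mem_node _).compl
  · exact MeasurableSet.iInter fun σ =>
      himp _ _ (measurableSet_mem_node _) (measurableSet_card_suc σ (fun c => 0 < c))
  · exact MeasurableSet.iInter fun k => MeasurableSet.iUnion fun m => measurableSet_normGE m k

/-! ### Conditions -/

variable {I : Type} [LinearOrder I]

/-- A condition from raw data: outside of the good trees one takes the full tree. -/
theorem Cond.exists_of_raw (T : I → Pt I → Set Node) (S : Set I) (hS : S.Countable)
    (hfull : ∀ i, i ∉ S → ∀ y, T i y = full)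
    (hdep : ∀ i y y', (∀ j ∈ S, j < i → y j = y' j) → T i y = T i y')
    (hmeas : ∀ i, Measurable (T i)) :
    ∃ q : Cond I, q.S = S ∧ (∀ i y, Good (T i y) → q.T i y = T i y) ∧
      (∀ i y, ¬ Good (T i y) → q.T i y = full) := by
  classical
  refine ⟨⟨fun i y => if Good (T i y) then T i y else full, S, ?_, hS, ?_, ?_, ?_⟩, rfl, ?_, ?_⟩
  · intro i y
    split_ifs with h
    · exact h
    · exact good_full
  · intro i hi y
    rw [hfull i hi y, ite_self]
  · intro i y y' h
    rw [hdep i y y' h]
  · intro i
    exact Measurable.ite (measurableSet_good.preimage (hmeas i)) (hmeas i) measurable_const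
  · intro i y h
    simp [h]
  · intro i y h
    simp [h]

theorem Cond.T_congr (p : Cond I) {i : I} {y y' : Pt I} (h : ∀ j, j < i → y j = y' j) :
    p.T i y = p.T i y' := p.dep i y y' fun j _ hj => h j hj

variable [WellFoundedLT I]

/-- Every partial point of a condition extends to a point of the condition. -/
theorem Cond.exists_ext (p : Cond I) (J : Set I) (hJ : IsLowerSet J) (y : Pt I)
    (hy : ∀ i ∈ J, y i ∈ FL.body (p.T i y)) : ∃ y' ∈ p.body, ∀ i ∈ J, y' i = y i := by
  classical
  let ch : Set Node → Br := fun T =>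
    if h : (FL.body T).Nonempty then h.some else fun m => ⟨0, sz_pos m⟩
  have hch : ∀ T, Good T → ch T ∈ FL.body T := by
    intro T hT
    simp only [ch, hT.body_nonempty, dif_pos]
    exact hT.body_nonempty.some_mem
  let F : (i : I) → ((j : I) → j < i → Br) → Br := fun i ih =>
    if i ∈ J then y i else
      ch (p.T i (fun j => if h : j < i then ih j h else fun m => ⟨0, sz_pos m⟩))
  let y' : Pt I := (wellFounded_lt (α := I)).fix F
  have hy' : ∀ i, y' i = if i ∈ J then y i else ch (p.T i y') := by
    intro i
    have h1 : y' i = F i (fun j _ => y' j) := (wellFounded_lt (α := I)).fix_eq F i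
    rw [h1]
    simp only [F]
    split_ifs
    · rfl
    · congr 1
      apply p.T_congr
      intro j hj
      simp [hj]
  have hyJ : ∀ i ∈ J, y' i = y i := fun i hi => by rw [hy' i, if_pos hi]
  refine ⟨y', fun i => ?_, hyJ⟩
  by_cases hi : i ∈ J
  · rw [hyJ i hi, p.T_congr (y' := y) (fun j hj => hyJ j (hJ hj.le hi))]
    exact hy i hi
  · rw [hy' i, if_neg hi]
    exact hch _ (p.good i y')

theorem Cond.body_nonempty (p : Cond I) : p.body.Nonempty := by
  obtain ⟨y, hy, _⟩ := p.exists_ext ∅ (fun _ _ _ h => h.elim)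
    (fun _ m => ⟨0, sz_pos m⟩)
    (fun i hi => hi.elim)
  exact ⟨y, hy⟩

/-- Changing the value at `i` to another branch of the tree. -/
theorem Cond.exists_ext_at (p : Cond I) {y : Pt I} (hy : y ∈ p.body) (i : I) {t : Br}
    (ht : t ∈ FL.body (p.T i y)) : ∃ y' ∈ p.body, (∀ j < i, y' j = y j) ∧ y' i = t := by
  classical
  obtain ⟨y', h1, h2⟩ := p.exists_ext (Set.Iic i) (fun _ _ h h' => le_trans h h')
    (Function.update y i t) (by
      intro j hj
      rcases lt_or_eq_of_le (Set.mem_Iic.1 hj) with h | h
      · rw [Function.update_of_ne h.ne, p.T_congr (y' := y)]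
        · exact hy j
        · intro k hk
          rw [Function.update_of_ne (hk.trans h).ne]
      · subst h
        rw [Function.update_self, p.T_congr (y' := y)]
        · exact ht
        · intro k hk
          rw [Function.update_of_ne hk.ne])
  refine ⟨y', h1, fun j hj => ?_, ?_⟩
  · rw [h2 j hj.le, Function.update_of_ne hj.ne]
  · rw [h2 i le_rfl, Function.update_self]

theorem Cond.T_subset {q p : Cond I} (h : q ≤ p) {y : Pt I} (hy : y ∈ q.body) (i : I) :
    q.T i y ⊆ p.T i y := by
  apply (q.good i y).subset_of_body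
  intro t ht
  obtain ⟨y', h1, h2, h3⟩ := q.exists_ext_at hy i ht
  have := h h1 i
  rwa [h3, p.T_congr h2] at this

omit [WellFoundedLT I] in
theorem Cond.le_of_T {q p : Cond I} (h : ∀ y ∈ q.body, ∀ i, q.T i y ⊆ p.T i y) : q ≤ p :=
  fun y hy i => body_mono (h y hy i) (hy i)

omit [WellFoundedLT I] in
theorem Cond.body_eq (p : Cond I) : p.body = ⋂ i ∈ p.S, {y | y i ∈ FL.body (p.T i y)} := by
  ext y
  simp only [Cond.body, Set.mem_ofPred_eq, Set.mem_iInter]
  constructor
  · intro h i _
    exact h i
  · intro h i
    by_cases hi : i ∈ p.S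
    · exact h i hi
    · rw [p.full' i hi y]; simp

omit [WellFoundedLT I] in
theorem Cond.measurableSet_body (p : Cond I) : MeasurableSet p.body := by
  rw [p.body_eq]
  exact MeasurableSet.biInter p.scount fun i _ =>
    measurableSet_mem_body (measurable_pi_apply i) (p.meas i)

end Pool.Agent.FL
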