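import Pool.Agent.Helper93_FL.RDefs

/-!
# Part C: names of reals over the iteration: definitions and statements
-/

open MeasureTheory Set

namespace Pool.Agent.FL

section
variable {B : Type} [CompleteBooleanAlgebra B]

/-- Boolean value of the statement that the generic point belongs to `A`. -/
noncomputable def hh (io : Cond Ix → B) (A : Set (Pt Ix)) : B :=
  ⨆ p : {p : Cond Ix // p.body ⊆ A}, io p.1

/-- The name of the set of natural numbers `S (generic point)`. -/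
noncomputable def codeN (io : Cond Ix → B) (S : Pt Ix → Set ℕ) : BSet B :=
  sb (fun n => hh io {y | n ∈ S y})

/-- The name of the real number `f (generic point)`. -/
noncomputable def codeR (io : Cond Ix → B) (f : Pt Ix → ℝ) : BSet B := codeN io (fun y => cutS (f y))

/-- `p` forces that the real `f` belongs to the set named by `a`. -/
def relA (io : Cond Ix → B) (a : BSet B) (p : Cond Ix) (f : Pt Ix → ℝ) : Prop :=
  io p ≤ bmem (codeR io f) a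
end

/-- C1: forcing and Boolean values. -/
def HHStmt : Prop :=
  ∀ (B : Type) [CompleteBooleanAlgebra B] (io : Cond Ix → B), IsDenseEmb io →
    (∀ (p : Cond Ix) A, p.body ⊆ A → io p ≤ hh io A) ∧
    (∀ (p : Cond Ix) A, MeasurableSet A → (io p ≤ hh io A ↔ ∀ q ≤ p, ¬ q.body ⊆ Aᶜ)) ∧
    (∀ A, MeasurableSet A → hh io Aᶜ = (hh io A)ᶜ) ∧
    (∀ p b, (io p ≤ b ↔ ∀ q ≤ p, ∃ r ≤ q, io r ≤ b)) ∧
    (∀ p b, (io p ≤ bᶜ ↔ ∀ q ≤ p, ¬ io q ≤ b)) ∧
    (∀ p b, ∃ q ≤ p, io q ≤ b ∨ io q ≤ bᶜ) ∧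
    (∀ (p : Cond Ix) A, MeasurableSet A → io p ≤ hh io A → ∃ q ≤ p, q.body ⊆ A) ∧
    (∀ (p : Cond Ix) A, MeasurableSet A → ∃ q ≤ p, q.body ⊆ A ∨ q.body ⊆ Aᶜ) ∧
    hh io ∅ = ⊥ ∧ hh io Set.univ = ⊤

/-- C2: reading of names of sets of natural numbers. -/
def ReadStmt : Prop :=
  ∀ (B : Type) [CompleteBooleanAlgebra B] (io : Cond Ix → B), IsDenseEmb io →
    ∀ (a : BSet B) (p : Cond Ix), ∃ e ≤ p,
      (∃ S : Pt Ix → Set ℕ, Measurable S ∧ io e ≤ beq a (codeN io S)) ∨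
      io e ≤ (⨅ x : BSet B, (bmem x a ⇨ bmem x (om B)))ᶜ

/-- C3: equal readings give equal names. -/
def CodeEqStmt : Prop :=
  ∀ (B : Type) [CompleteBooleanAlgebra B] (io : Cond Ix → B), IsDenseEmb io →
    ∀ (p : Cond Ix) (S S' : Pt Ix → Set ℕ), Measurable S → Measurable S' →
      (∀ y ∈ p.body, S y = S' y) → io p ≤ beq (codeN io S) (codeN io S')

/-- C4: covering the translates, or one null set for all. -/
def CoverStmt : Prop :=
  ∀ (B : Type) [CompleteBooleanAlgebra B] (io : Cond Ix → B), IsDenseEmb io →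
    ∀ (a : BSet B) (α : Ix) (p : Cond Ix), ∃ e ≤ p,
      (∃ (c : ℚ) (k : ℕ), ∀ q ≤ e, ∀ ec : Pt Ix → ℕ → ℚ × ℚ, Measurable ec →
        (∀ y, sumI muR (ec y) ≤ (1 / 2) ^ k) →
        ∃ q' ≤ q, ∃ f : Pt Ix → ℝ, Measurable f ∧ relA io a q' f ∧
          ∀ y ∈ q'.body, f y + DrB (y α) + c ∉ unI (ec y)) ∨
      (∃ N : Set (Pt Ix × ℝ), MeasurableSet N ∧ (∀ y, muR {x | (y, x) ∈ N} = 0) ∧
        ∀ q ≤ e, ∀ f : Pt Ix → ℝ, Measurable f → relA io a q f →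
          ∀ c : ℚ, ¬ ∀ y ∈ q.body, (y, f y + DrB (y α) + c) ∉ N)

/-- C5: measurable covers of null sets by rational intervals. -/
def CoverSelStmt : Prop :=
  ∀ Z : Set (Pt Ix × ℝ), MeasurableSet Z → (∀ y, volume {x | (y, x) ∈ Z} = 0) → ∀ k : ℕ,
    ∃ ec : Pt Ix → ℕ → ℚ × ℚ, Measurable ec ∧ ∀ y, sumI volume (ec y) ≤ (1 / 2) ^ k ∧
      {x | (y, x) ∈ Z} ⊆ unI (ec y)

/-- C6: decoding of reals and of sequences of intervals is measurable. -/
def DecodeStmt : Prop :=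
  (∃ dr : Set ℕ → ℝ, Measurable dr ∧ (∀ r, dr (cutS r) = r) ∧
    MeasurableSet {S : Set ℕ | S = cutS (dr S)}) ∧
  (∃ de : Set ℕ → ℕ → ℚ × ℚ, Measurable de ∧ (∀ c, de (grS c) = c) ∧
    MeasurableSet {S : Set ℕ | S = grS (de S)}) ∧
  Measurable cutS ∧ Measurable grS ∧
  (∀ ν : Measure ℝ, Measurable (sumI ν)) ∧
  MeasurableSet {z : (ℕ → ℚ × ℚ) × ℝ | z.2 ∈ unI z.1}

end Pool.Agent.FL
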