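import Pool.Agent.Helper93_FL.Final2

/-!
# Final assembly, part 4: the theorem
-/

open MeasureTheory Set

namespace Pool.Agent.FL

theorem qe_surj (c : ℚ) : ∃ n, qe n = c := by
  obtain ⟨n, hn⟩ := (Denumerable.eqv ℚ).symm.surjective c
  exact ⟨n, hn⟩

section
variable {B : Type} [CompleteBooleanAlgebra B] {io : Cond Ix → B} {dr : Set ℕ → ℝ}
  {de : Set ℕ → ℕ → ℚ × ℚ} {H : Set (Obj B)} {g : Pt Ix}
  {M : Type} {E : M → M → Prop} {π : BSet B → M}

theorem mem3 {a b c : Obj B} (ha : a ∈ H) (hb : b ∈ H) (hc : c ∈ H) : ∀ x ∈ [a, b, c], x ∈ H := by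
  intro x hx
  rcases List.mem_cons.1 hx with rfl | hx
  · exact ha
  · exact mem2 hb hc x hx

theorem ModelProp.realRead (m : ModelProp io H g E π) (h : HullProp io dr de H g) (hA1 : A1Stmt)
    (hA3 : A3Stmt) (hH : HHStmt) (hCE : CodeEqStmt) (hio : IsDenseEmb io) (hcut : Measurable cutS)
    (hdr1 : Measurable dr)
    (hdr2 : ∀ r, dr (cutS r) = r) (hdr3 : MeasurableSet {S : Set ℕ | S = cutS (dr S)})
    {x : BSet B} (hx : Obj.nm x ∈ H) {r : ℝ} (hc : Codes E (π x) (cutS r)) :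
    ∃ f, Obj.rf f ∈ H ∧ Measurable f ∧ f g = r ∧ ∃ e ∈ CC H g, io e ≤ beq x (codeR io f) := by
  obtain ⟨S, hSH, hS, hSg, e, he, hle⟩ := m.read h hA1 hA3 hH hio hx hc
  have hrf : Obj.rf (fun y => dr (S y)) ∈ H := h.cl 5 [.sf S] (mem1 hSH)
  have hms : Obj.ms {y | S y = cutS (dr (S y))} ∈ H := h.cl 8 [.sf S] (mem1 hSH)
  have hmeas : MeasurableSet {y | S y = cutS (dr (S y))} := hS hdr3
  obtain ⟨d, hd, hdb⟩ := h.eval hmeas hms (show S g = cutS (dr (S g)) by rw [hSg, hdr2])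
  obtain ⟨e', he', h1, h2⟩ := h.cpt he hd
  refine ⟨_, hrf, hdr1.comp hS, by simp only [hSg, hdr2], e', he', ?_⟩
  have h3 : io e' ≤ beq (codeN io S) (codeR io fun y => dr (S y)) :=
    hCE B io hio e' S (fun y => cutS (dr (S y))) hS (hcut.comp (hdr1.comp hS))
      (fun y hy => hdb (h2 hy))
  have h4 : io e' ≤ beq x (codeN io S) := (hio.mono _ _ h1).trans hle
  exact (le_inf h4 h3).trans ((hA1 B).2.2.1 _ _ _)

theorem ModelProp.seqRead (m : ModelProp io H g E π) (h : HullProp io dr de H g) (hA1 : A1Stmt)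
    (hA3 : A3Stmt) (hH : HHStmt) (hio : IsDenseEmb io) (hde1 : Measurable de)
    (hde2 : ∀ c, de (grS c) = c)
    {x : BSet B} (hx : Obj.nm x ∈ H) {c : ℕ → ℚ × ℚ} (hc : Codes E (π x) (grS c)) :
    ∃ ec, Obj.ef ec ∈ H ∧ Measurable ec ∧ ec g = c := by
  obtain ⟨S, hSH, hS, hSg, e, he, hle⟩ := m.read h hA1 hA3 hH hio hx hc
  have hrf : Obj.ef (fun y => de (S y)) ∈ H := h.cl 6 [.sf S] (mem1 hSH)
  exact ⟨_, hrf, hde1.comp hS, by simp only [hSg, hde2]⟩

theorem ModelProp.realOut (m : ModelProp io H g E π) (h : HullProp io dr de H g) (hA1 : A1Stmt)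
    (hA3 : A3Stmt) (hH : HHStmt) (hio : IsDenseEmb io) (hcut : Measurable cutS)
    {f : Pt Ix → ℝ} (hf : Obj.rf f ∈ H) (hfm : Measurable f) :
    Obj.nm (codeR io f) ∈ H ∧ Codes E (π (codeR io f)) (cutS (f g)) :=
  m.codes_codeN h hA1 hA3 hH hio (hcut.comp hfm) (h.cl 1 [.rf f] (mem1 hf))

theorem ModelProp.mem_reals (m : ModelProp io H g E π) (h : HullProp io dr de H g) (hA1 : A1Stmt)
    (hA3 : A3Stmt) (hH : HHStmt) (hio : IsDenseEmb io) (hcut : Measurable cutS)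
    {a : BSet B} (ha : Obj.nm a ∈ H) {f : Pt Ix → ℝ} (hf : Obj.rf f ∈ H) (hfm : Measurable f)
    {d : Cond Ix} (hd : d ∈ CC H g) (hrel : relA io a d f) : f g ∈ realsOf E (π a) := by
  obtain ⟨h1, h2⟩ := m.realOut h hA1 hA3 hH hio hcut hf hfm
  exact ⟨_, (m.memi _ _ h1 ha).2 ⟨d, hd, hrel⟩, h2⟩

theorem ModelProp.reals_mem (m : ModelProp io H g E π) (h : HullProp io dr de H g) (hA1 : A1Stmt)
    (hA3 : A3Stmt) (hH : HHStmt) (hCE : CodeEqStmt) (hio : IsDenseEmb io) (hcut : Measurable cutS)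
    (hdr1 : Measurable dr)
    (hdr2 : ∀ r, dr (cutS r) = r) (hdr3 : MeasurableSet {S : Set ℕ | S = cutS (dr S)})
    {a : BSet B} (ha : Obj.nm a ∈ H) {r : ℝ} (hr : r ∈ realsOf E (π a)) :
    ∃ f, Obj.rf f ∈ H ∧ Measurable f ∧ f g = r ∧ ∃ d ∈ CC H g, relA io a d f := by
  obtain ⟨x, hxa, hc⟩ := hr
  obtain ⟨x, hx, rfl⟩ := m.surj x
  obtain ⟨f, hf, hfm, hfg, e, he, hle⟩ :=
    m.realRead h hA1 hA3 hH hCE hio hcut hdr1 hdr2 hdr3 hx hc
  obtain ⟨d, hd, hdb⟩ := (m.memi _ _ hx ha).1 hxa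
  obtain ⟨e', he', h1, h2⟩ := h.cpt he hd
  refine ⟨f, hf, hfm, hfg, e', he', ?_⟩
  have h3 : io e' ≤ beq x (codeR io f) := (hio.mono _ _ h1).trans hle
  have h4 : io e' ≤ bmem x a := (hio.mono _ _ h2).trans hdb
  exact (le_inf h3 h4).trans ((hA1 B).2.2.2.1 _ _ _)

end

theorem half_pow_lt {ε : ENNReal} (hε : 0 < ε) : ∃ k : ℕ, ((1 : ENNReal) / 2) ^ k < ε := by
  have h1 : Filter.Tendsto (fun k : ℕ => ((1 : ENNReal) / 2) ^ k) Filter.atTop (nhds 0) := by
    apply ENNReal.tendsto_pow_atTop_nhds_zero_of_lt_one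
    simp [ENNReal.inv_lt_one]
  exact ((tendsto_order.1 h1).2 ε hε).exists

theorem final (hA1 : A1Stmt) (hA3 : A3Stmt) (hM : ModelStatement) (hRO : ROStmt)
    (hR0 : R0Stmt) (hH : HHStmt) (hRd : ReadStmt) (hCE : CodeEqStmt) (hCov : CoverStmt)
    (hCS : CoverSelStmt) (hD : DecodeStmt) (hCT : CTStmt) (hG : GplStmt) : FinalStmt := by
  obtain ⟨B, _, io, hio⟩ := hRO (Cond Ix)
  obtain ⟨⟨dr, hdr1, hdr2, hdr3⟩, ⟨de, hde1, hde2, hde3⟩, hcut, hgr, hsum, hun⟩ := hD
  obtain ⟨H, g, h⟩ := exists_hull hA3 hH hRd hCov hG hio dr de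
  obtain ⟨M, E, π, m⟩ := exists_model' hM hio h
  obtain ⟨hp1, hp2, hp3, hp4, hp5, hp6, hp7, _⟩ := hR0
  refine ⟨M, E, m.zfc, m.std, muR, hp1, fun x => measure_singleton x, hp3,
    ⟨_, (m.codes_codeN h hA1 hA3 hH hio measurable_const h.mu_mem).2⟩,
    ⟨witC, ⟨_, (m.codes_codeN h hA1 hA3 hH hio measurable_const h.w_mem).2⟩,
      singW_witC hp1 hp3 hCS⟩, ?_⟩
  intro A _ hpos
  obtain ⟨a, ha, rfl⟩ := m.surj A
  obtain ⟨d7, hd7H, ht7, hg7⟩ := h.meet 6 [.nm a] (mem1 ha)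
  have hd7 : d7 ∈ CC H g := ⟨hd7H, hg7⟩
  rcases ht7 with hNN | hZZ
  · -- not null
    obtain ⟨α, hα⟩ := hCT (relA io a) (fun p q f hq hp => relA_mono hio hq hp) d7 hNN
    have hex : ∃ α, CTp io a d7 α := ⟨α, hα⟩
    clear hα
    clear α
    have hcl := h.cl 11 [.cd d7, .nm a] (mem2 hd7H ha)
    have hop : oper io dr de 11 [.cd d7, .nm a] = Obj.ix hex.choose := by
      simp only [oper, dif_pos hex]
    rw [hop] at hcl
    have hCTp := hex.choose_spec
    generalize hex.choose = α at hcl hCTp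
    obtain ⟨d8, hd8H, ht8, hg8⟩ := h.meet 7 [.nm a, .ix α] (mem2 ha hcl)
    have hd8 : d8 ∈ CC H g := ⟨hd8H, hg8⟩
    rcases ht8 with ⟨c, k, halt⟩ | ⟨N, hN, hN0, halt⟩
    · obtain ⟨n, hcn⟩ := qe_surj c
      have hmd : Measurable (fun y : Pt Ix => DrB (y α) + (qe n : ℝ)) :=
        (hp7.comp (measurable_pi_apply α)).add measurable_const
      have htH : Obj.rf (fun y : Pt Ix => DrB (y α) + (qe n : ℝ)) ∈ H :=
        h.cl 14 [.ix α, .nt n] (mem2 hcl (h.nt_mem n))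
      refine ⟨DrB (g α) + (qe n : ℝ), ⟨_, (m.realOut h hA1 hA3 hH hio hcut htH hmd).2⟩,
        (1 / 2) ^ k, ?_, ?_⟩
      · apply ENNReal.pow_pos
        simp
      · rintro c' ⟨x, hx⟩ hcovr
        obtain ⟨x, hxH, rfl⟩ := m.surj x
        by_contra hlt
        rw [not_le] at hlt
        obtain ⟨ec, hecH, hecm, hecg⟩ := m.seqRead h hA1 hA3 hH hio hde1 hde2 hxH hx
        classical
        let ec' : Pt Ix → ℕ → ℚ × ℚ :=
          fun y => if sumI muR (ec y) ≤ (1 / 2) ^ k then ec y else fun _ => (0, 0)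
        have hec'H : Obj.ef ec' ∈ H := by
          have := h.cl 15 [.ef ec, .nt k] (mem2 hecH (h.nt_mem k))
          simp only [oper] at this
          convert this
        have hec'm : Measurable ec' := by
          refine Measurable.ite ?_ hecm measurable_const
          exact measurableSet_le ((hsum muR).comp hecm) measurable_const
        have hec's : ∀ y, sumI muR (ec' y) ≤ (1 / 2) ^ k := by
          intro y
          simp only [ec']
          split_ifs with hy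
          · exact hy
          · simp [sumI]
        have hec'g : ec' g = c' := by
          simp only [ec', hecg, if_pos hlt.le]
        obtain ⟨d10, hd10H, ht10, hg10⟩ := h.meet 8 [.nm a, .ix α, .nt n, .ef ec'] (by
          intro z hz
          rcases List.mem_cons.1 hz with rfl | hz
          · exact ha
          · exact mem3 hcl (h.nt_mem n) hec'H z hz)
        have hd10 : d10 ∈ CC H g := ⟨hd10H, hg10⟩
        rcases ht10 with hhit | hno
        · have hcl16 := h.cl 16 [.cd d10, .nm a, .ix α, .nt n, .ef ec'] (by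
            intro z hz
            rcases List.mem_cons.1 hz with rfl | hz
            · exact hd10H
            rcases List.mem_cons.1 hz with rfl | hz
            · exact ha
            · exact mem3 hcl (h.nt_mem n) hec'H z hz)
          have hop16 : oper io dr de 16 [.cd d10, .nm a, .ix α, .nt n, .ef ec'] =
              Obj.rf hhit.choose := by
            simp only [oper, dif_pos hhit]
          rw [hop16] at hcl16
          obtain ⟨hf1, hf2, hf3⟩ := hhit.choose_spec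
          generalize hhit.choose = f at hcl16 hf1 hf2 hf3
          have hmem := m.mem_reals h hA1 hA3 hH hio hcut ha hcl16 hf1 hd10 hf2
          have h1 := hcovr ⟨f g, hmem, rfl⟩
          apply hf3 g hg10
          rw [hec'g]
          simpa [add_assoc] using h1
        · obtain ⟨e, _, h1, h2⟩ := h.cpt hd10 hd8
          obtain ⟨q', hq', f, hf⟩ := halt e h2 ec' hec'm hec's
          rw [hcn] at hno
          exact hno q' (hq'.trans h1) ⟨f, hf⟩
    · exfalso
      obtain ⟨e, _, h1, h2⟩ := h.cpt hd7 hd8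
      obtain ⟨q, hq, f, hf, hrel, c, hc⟩ := hCTp e h1 N hN hN0
      exact halt q (hq.trans h2) f hf hrel c hc
  · exfalso
    have hcl := h.cl 10 [.cd d7, .nm a] (mem2 hd7H ha)
    have hop : oper io dr de 10 [.cd d7, .nm a] = Obj.zs hZZ.choose := by
      simp only [oper, dif_pos hZZ]
    rw [hop] at hcl
    obtain ⟨hZ1, hZ2, hZ3⟩ := hZZ.choose_spec
    generalize hZZ.choose = Z at hcl hZ1 hZ2 hZ3
    obtain ⟨ε, hε, hcovr⟩ := hpos
    obtain ⟨k, hk⟩ := half_pow_lt hε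
    have hec := hCS Z hZ1 hZ2 k
    have hcl12 := h.cl 12 [.zs Z, .nt k] (mem2 hcl (h.nt_mem k))
    have hop12 : oper io dr de 12 [.zs Z, .nt k] = Obj.ef hec.choose := by
      simp only [oper, dif_pos hec]
    rw [hop12] at hcl12
    obtain ⟨he1, he2⟩ := hec.choose_spec
    generalize hec.choose = ec at hcl12 he1 he2
    have hsf : Obj.sf (fun y => grS (ec y)) ∈ H := h.cl 2 [.ef ec] (mem1 hcl12)
    have hle := hcovr (ec g)
      ⟨_, (m.codes_codeN h hA1 hA3 hH hio (hgr.comp he1) hsf).2⟩ ?_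
    · exact absurd (hle.trans (he2 g).1) (not_le.2 hk)
    · intro r hr
      obtain ⟨f, hf, hfm, hfg, d, hd, hrel⟩ :=
        m.reals_mem h hA1 hA3 hH hCE hio hcut hdr1 hdr2 hdr3 ha hr
      rw [← hfg]
      apply (he2 g).2
      by_contra hcon
      have hms : Obj.ms {y | (y, f y) ∈ Z} ∈ H := h.cl 13 [.zs Z, .rf f] (mem2 hcl hf)
      have hmeas : MeasurableSet {y | (y, f y) ∈ Z} := (measurable_id.prodMk hfm) hZ1
      obtain ⟨d4, hd4H, ht4, hg4⟩ := h.meet 4 [.ms {y | (y, f y) ∈ Z}] (mem1 hms)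
      rcases ht4 hmeas with ht4 | ht4
      · exact hcon (ht4 hg4)
      · obtain ⟨e, he, h1, h2⟩ := h.cpt hd ⟨hd4H, hg4⟩
        obtain ⟨e', he', h3, h4⟩ := h.cpt he hd7
        exact hZ3 e' h4 f hfm (relA_mono hio (h3.trans h1) hrel)
          (fun y hy => ht4 (h2 (h3 hy)))

end Pool.Agent.FL
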