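import Pool.Agent.Helper93_FL.A5
import Pool.Agent.Helper93_FL.Final3
import Pool.Agent.Helper9_FL.A1
import Pool.Agent.Helper9_FL.A4
import Pool.Agent.Helper9_FL.KL
import Pool.Agent.Helper76_FL.A2a
import Pool.Agent.Helper76_FL.A2b
import Pool.Agent.Helper76_FL.A2c
import Pool.Agent.Helper76_FL.B3
import Pool.Agent.Helper76_FL.B5
import Pool.Agent.Helper76_FL.B7
import Pool.Agent.Helper57_FL.A3
import Pool.Agent.Helper8_FL.B1
import Pool.Agent.Helper8_FL.B2
import Pool.Agent.Helper8_FL.B6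
import Pool.Agent.Helper94_FL.F1
import Pool.Agent.Helper94_FL.F6
import Pool.Agent.Helper94_FL.F7
import Pool.Agent.Helper94_FL.F8
import Pool.Agent.Helper86_FL.F2
import Pool.Agent.Helper86_FL.F4
import Pool.Agent.Helper86_FL.F5
import Pool.Agent.Helper46_FL.R6
import Pool.Agent.Helper46_FL.R1
import Pool.Agent.Helper88_FL.R0
import Pool.Agent.Helper88_FL.Dig
import Pool.Agent.Helper88_FL.C5
import Pool.Agent.Helper88_FL.C6
import Pool.Agent.Helper92_FL.R7
import Pool.Agent.Helper92_FL.R8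
import Pool.Agent.Helper92_FL.R9
import Pool.Agent.Helper92_FL.R2
import Pool.Agent.Helper25_FL.C1
import Pool.Agent.Helper25_FL.C3
import Pool.Agent.Helper25_FL.R5
import Pool.Agent.Helper3_FL.C2
import Pool.Agent.Helper3_FL.C4
import Pool.Agent.Helper10_FL.R4

/-!
# Combination of all the modules
-/

namespace Pool.Agent.FL

/-- All the modules combined. -/
theorem combine (hThin : ThinStmt) (hR3 : R3Stmt) : FinalStmt := by
  have a1 : A1Stmt := H9.a1
  have a2a : A2aStmt := H76.a2a a1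
  have a2b : A2bStmt := H76.a2b a1
  have a2c : A2cStmt := H76.a2c a1
  have a3 : A3Stmt := H57.a3 a1
  have a4 : ModelStatement := H9.a4 a1 a2a a2b a2c a3
  have a5 : ROStmt := H93.a5
  have b1 : PhiStmt := H8.phi_stmt
  have b2 : ProdStmt := H8.prod
  have b3 : WStmt := H76.b3 b2
  have b5 : SelStmt := H76.b5 b1
  have b6 : XStmt := H8.X_stmt b1
  have b7 : PMStmt := H76.b7 b1 b3 hThin b5 b6
  have f1 : ApiStmt := H94.api
  have f2 : ConstStmt := H86.const b7 f1
  have f3 : KLStmt := H9.kl b7 f1 f2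
  have f4 : SLStepStmt := H86.slStep f1 f3 f2
  have f5 : IntroStmt := H86.intro f1 f2
  have f6 : FusStmt := H94.fus_core
  have f7 : IndStmt := H94.ind_core f4 f5 f6
  have f8 : GplStmt := H94.gpl f7 f6
  have r1 : R1Stmt := H46.r1
  have r0 : R0Stmt := H88.r0 r1
  have r0b : R0bStmt := H88.r0b
  have r2' : R2Stmt := r2
  have r4 : R4Stmt := H10.r4 b1 b2 r1 r2'
  have r5 : R5Stmt := H25.r5 b1
  have r6 : CoreStmt := H46.core b1 b2 b6 b7 f1 f2 r0 r0b r2' hR3 r4 r5
  have r7' : CountStmt := r7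
  have r8' : ClosStmt := r8
  have r9' : CTStmt := r9 f1 r6 r7' r8'
  have c1 : HHStmt := H25.hh_main f2
  have c2 : ReadStmt := H3.read a1 a3 c1 f7
  have c3 : CodeEqStmt := H25.codeEq a1
  have c6 : DecodeStmt := H88.c6
  have c4 : CoverStmt := H3.cover f2 f7 c1 c6
  have c5 : CoverSelStmt := H88.c5
  exact final a1 a3 a4 a5 r0 c1 c2 c3 c4 c5 c6 r9' f8

end Pool.Agent.FL
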