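import Mathlib

/-!
# Forcing library, combinatorial part: definitions

Trees on lists of natural numbers, conditions of the concrete countable support iteration,
measures used for the randomised branches.  Everything is a plain Lean object: no names, no
generic filters.
-/

open MeasureTheory Set

namespace Pool.Agent.FL

/-- Number of digits allowed at level `m` for the generic branches. -/
def sz (m : ℕ) : ℕ := (m + 2) ^ (m + 2)

/-- Size of the alphabet of the randomness at level `m`: divisible by every positive number
which is at most `sz m`. -/
def Lz (m : ℕ) : ℕ := (sz m).factorial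

abbrev Node := List ℕ

/-- Branches: sequences of digits, the digit at level `m` is below `sz m`. -/
abbrev Br := (m : ℕ) → Fin (sz m)

/-- Randomness used to choose a branch of a tree. -/
abbrev Rd := (m : ℕ) → Fin (Lz m)

/-- Initial segment of length `m` of a sequence of digits. -/
def pre {s : ℕ → ℕ} (t : (m : ℕ) → Fin (s m)) (m : ℕ) : Node :=
  (List.range m).map (fun i => (t i).val)

open Classical in
/-- The finite set of successors (below `sz`) of a node. -/
noncomputable def suc (T : Set Node) (σ : Node) : Finset ℕ :=
  (Finset.range (sz σ.length)).filter (fun a => σ ++ [a] ∈ T)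

/-- Good trees: no dead ends, digits below `sz`, and the number of successors is eventually larger
than every power of the level. -/
structure Good (T : Set Node) : Prop where
  nil : [] ∈ T
  down : ∀ σ a, σ ++ [a] ∈ T → σ ∈ T
  bdd : ∀ σ a, σ ++ [a] ∈ T → a < sz σ.length
  ext : ∀ σ ∈ T, (suc T σ).Nonempty
  norm : ∀ k : ℕ, ∃ m : ℕ, ∀ σ ∈ T, m ≤ σ.length → (σ.length + 2) ^ k ≤ (suc T σ).card

/-- The full tree. -/
def full : Set Node := {σ | ∀ i (h : i < σ.length), σ[i] < sz i}

/-- The set of branches of a tree. -/
def body (T : Set Node) : Set Br := {t | ∀ m, pre t m ∈ T}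

/-- Beyond level `n` all nodes have at least `(level+2)^k` successors. -/
def NormGE (T : Set Node) (n k : ℕ) : Prop :=
  ∀ σ ∈ T, n ≤ σ.length → (σ.length + 2) ^ k ≤ (suc T σ).card

/-- Two trees have the same nodes of length at most `n`. -/
def SameUpTo (T T' : Set Node) (n : ℕ) : Prop := ∀ σ : Node, σ.length ≤ n → (σ ∈ T ↔ σ ∈ T')

/-- The part of the tree compatible with the node `τ`. -/
def sub (T : Set Node) (τ : Node) : Set Node := {σ | σ ∈ T ∧ (σ <+: τ ∨ τ <+: σ)}

/-- Points of the index space. -/
abbrev Pt (I : Type) := I → Br

/-! ### The full tree is good -/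

theorem mem_suc {T : Set Node} {σ : Node} {a : ℕ} :
    a ∈ suc T σ ↔ a < sz σ.length ∧ σ ++ [a] ∈ T := by
  classical
  simp [suc]

theorem full_append {σ : Node} {a : ℕ} (h : σ ++ [a] ∈ full) : σ ∈ full ∧ a < sz σ.length := by
  refine ⟨fun i hi => ?_, ?_⟩
  · have := h i (by simp; omega)
    rwa [List.getElem_append_left hi] at this
  · have := h σ.length (by simp)
    simpa using this

theorem full_append' {σ : Node} {a : ℕ} (h : σ ∈ full) (ha : a < sz σ.length) :
    σ ++ [a] ∈ full := by
  intro i hi
  by_cases h1 : i < σ.length
  · rw [List.getElem_append_left h1]; exact h i h1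
  · have h2 : i = σ.length := by simp at hi; omega
    subst h2
    simpa using ha

theorem suc_full {σ : Node} (h : σ ∈ full) : suc full σ = Finset.range (sz σ.length) := by
  ext a
  rw [mem_suc, Finset.mem_range]
  exact ⟨fun h => h.1, fun ha => ⟨ha, full_append' h ha⟩⟩

theorem sz_pos (m : ℕ) : 0 < sz m := by unfold sz; positivity

theorem good_full : Good full where
  nil := by intro i hi; simp at hi
  down σ a h := (full_append h).1
  bdd σ a h := (full_append h).2
  ext σ h := by rw [suc_full h]; exact ⟨0, by simpa using sz_pos _⟩
  norm k := ⟨k, fun σ h hk => by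
    rw [suc_full h, Finset.card_range]
    exact Nat.pow_le_pow_right (by omega) (by omega)⟩

/-! ### Conditions -/

/-- Conditions of the iteration along the linear order `I`: a tree for every coordinate, which is a
measurable function of the previous coordinates in a countable support; outside of the support the
tree is full. -/
structure Cond (I : Type) [LinearOrder I] where
  T : I → Pt I → Set Node
  S : Set I
  good : ∀ i y, Good (T i y)
  scount : S.Countable
  full' : ∀ i, i ∉ S → ∀ y, T i y = full
  dep : ∀ i y y', (∀ j ∈ S, j < i → y j = y' j) → T i y = T i y'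
  meas : ∀ i, Measurable (T i)

variable {I : Type} [LinearOrder I]

/-- The set of points of a condition. -/
def Cond.body (p : Cond I) : Set (Pt I) := {y | ∀ i, y i ∈ FL.body (p.T i y)}

/-- `q ≤ p` iff the body of `q` is contained in the body of `p`. -/
instance : Preorder (Cond I) where
  le q p := q.body ⊆ p.body
  le_refl p := Set.Subset.refl _
  le_trans _ _ _ h h' := Set.Subset.trans h h'

theorem Cond.le_def {q p : Cond I} : q ≤ p ↔ q.body ⊆ p.body := Iff.rfl

/-- The condition lives on the coordinates in `J`. -/
def Cond.Below (p : Cond I) (J : Set I) : Prop := ∀ i, i ∉ J → ∀ y, p.T i y = full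

/-- A set of points depends only on the coordinates in `J`. -/
def DepOn {I : Type} (J : Set I) (A : Set (Pt I)) : Prop :=
  ∀ y y' : Pt I, (∀ i ∈ J, y i = y' i) → (y ∈ A ↔ y' ∈ A)

/-- A function on points depends only on the coordinates in `J`. -/
def DepFun {I : Type} {β : Type*} (J : Set I) (f : Pt I → β) : Prop :=
  ∀ y y' : Pt I, (∀ i ∈ J, y i = y' i) → f y = f y'

open Classical in
/-- Replace the coordinates outside of `J` of `y` by those of `z`. -/
noncomputable def glueP {I : Type} (J : Set I) (y z : Pt I) : Pt I := fun i =>
  if i ∈ J then y i else z i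

open Classical in
/-- Restriction of a condition to a set of coordinates (meaningful for lower sets `J`). -/
noncomputable def Cond.restr (p : Cond I) (J : Set I) : Cond I where
  T := fun i y => if i ∈ J then p.T i y else full
  S := p.S
  good := by
    intro i y
    split_ifs
    · exact p.good i y
    · exact good_full
  scount := p.scount
  full' := by
    intro i hi y
    split_ifs
    · exact p.full' i hi y
    · rfl
  dep := by
    intro i y y' h
    rw [p.dep i y y' h]
  meas := by
    intro i
    by_cases hi : i ∈ J
    · simpa [hi] using p.meas i
    · simp [hi]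

open Classical in
/-- Glue a condition `r` on `J` with the part of `p` outside of `J` (meaningful for lower
sets `J`). -/
noncomputable def Cond.glue (r p : Cond I) (J : Set I) : Cond I where
  T := fun i y => if i ∈ J then r.T i y else p.T i y
  S := r.S ∪ p.S
  good := by
    intro i y
    split_ifs
    · exact r.good i y
    · exact p.good i y
  scount := r.scount.union p.scount
  full' := by
    intro i hi y
    rw [Set.mem_union, not_or] at hi
    rw [r.full' i hi.1, p.full' i hi.2, ite_self]
  dep := by
    intro i y y' h
    rw [r.dep i y y' (fun j hj hji => h j (Or.inl hj) hji),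
      p.dep i y y' (fun j hj hji => h j (Or.inr hj) hji)]
  meas := by
    intro i
    by_cases hi : i ∈ J
    · simpa [hi] using r.meas i
    · simpa [hi] using p.meas i

/-! ### Measures -/

/-- Uniform probability on `Fin n`. -/
noncomputable def unifM (n : ℕ) : Measure (Fin n) := (n : ENNReal)⁻¹ • Measure.count

/-- Law of the randomness of one coordinate. -/
noncomputable def mU : Measure Rd := Measure.infinitePi (fun m => unifM (Lz m))

/-- Law of the randomness of all coordinates. -/
noncomputable def mP (I : Type) : Measure (I → Rd) := Measure.infinitePi (fun _ : I => mU)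

/-- The `r`-th element of a finite set. -/
noncomputable def pick (A : Finset ℕ) (r : ℕ) : ℕ := (A.sort (· ≤ ·)).getD r 0

/-- The node of length `m` chosen in the tree `T` by the randomness `w`: at every node the
successor is chosen uniformly. -/
noncomputable def phiN (T : Set Node) (w : Rd) : ℕ → Node
  | 0 => []
  | m + 1 =>
    phiN T w m ++ [pick (suc T (phiN T w m)) ((w m).val * (suc T (phiN T w m)).card / Lz m)]

/-- The branch chosen in the tree `T` by the randomness `w` (the remainder modulo `sz m` has no
effect for good trees). -/
noncomputable def phi (T : Set Node) (w : Rd) : Br := fun m =>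
  ⟨pick (suc T (phiN T w m)) ((w m).val * (suc T (phiN T w m)).card / Lz m) % sz m,
    Nat.mod_lt _ (sz_pos m)⟩

open Classical in
/-- The random point of the body of `p` defined from the randomness `u`, by recursion along `I`. -/
noncomputable def Cond.X [WellFoundedLT I] (p : Cond I) (u : I → Rd) : Pt I :=
  (wellFounded_lt (α := I)).fix (fun i ih =>
    phi (p.T i (fun j => if h : j < i then ih j h else fun m => ⟨0, sz_pos m⟩)) (u i))

end Pool.Agent.FL
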