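import Pool.Agent.Helper93_FL.Tasks

/-!
# Final assembly, part 2
-/

open MeasureTheory Set

namespace Pool.Agent.FL

/-- The trivial condition. -/
noncomputable def Cond.one (I : Type) [LinearOrder I] : Cond I where
  T := fun _ _ => full
  S := ∅
  good := fun _ _ => good_full
  scount := Set.countable_empty
  full' := fun _ _ _ => rfl
  dep := fun _ _ _ _ => rfl
  meas := fun _ => measurable_const

section
variable {B : Type} [CompleteBooleanAlgebra B]

/-- The list of objects of an assignment. -/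
noncomputable def lst (s : ℕ → BSet B) (n : ℕ) : List (Obj B) :=
  (List.range n).map (fun i => Obj.nm (s i))

theorem asg_lst (s : ℕ → BSet B) (n i : ℕ) (h : i < n) : asg (lst s n) i = s i := by
  simp [asg, lst, h]

theorem mem_lst {s : ℕ → BSet B} {n : ℕ} {x : Obj B} (h : x ∈ lst s n) : ∃ i, x = Obj.nm (s i) := by
  simp only [lst, List.mem_map] at h
  obtain ⟨i, _, rfl⟩ := h
  exact ⟨i, rfl⟩

theorem val_asg (φ : Fml) (s : ℕ → BSet B) : φ.val s = φ.val (asg (lst s φ.bd)) :=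
  φ.val_congr _ _ fun i hi => (asg_lst s _ i hi).symm

theorem val_asg_update (φ : Fml) (s : ℕ → BSet B) (i : ℕ) (a : BSet B) :
    φ.val (Function.update s i a) = φ.val (Function.update (asg (lst s φ.bd)) i a) := by
  apply φ.val_congr
  intro j hj
  by_cases h : j = i
  · subst h; simp
  · rw [Function.update_of_ne h, Function.update_of_ne h, asg_lst s _ j hj]

open Classical in
/-- A witness of singularity. -/
noncomputable def witC : ℕ → ℕ → ℚ × ℚ :=
  if h : ∃ c, SingW muR c then h.choose else fun _ _ => (0, 0)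

theorem singW_witC (hp : IsProbabilityMeasure muR) (hs : muR ⟂ₘ (volume : Measure ℝ))
    (hCS : CoverSelStmt) : SingW muR witC := by
  have hex : ∃ c, SingW muR c := by
    obtain ⟨S, hS, h1, h2⟩ := hs
    have hZ : MeasurableSet ((Set.univ : Set (Pt Ix)) ×ˢ Sᶜ) := MeasurableSet.univ.prod hS.compl
    have h0 : ∀ y : Pt Ix,
        volume {x : ℝ | (y, x) ∈ (Set.univ : Set (Pt Ix)) ×ˢ Sᶜ} = 0 := by
      intro y
      have : {x : ℝ | (y, x) ∈ (Set.univ : Set (Pt Ix)) ×ˢ Sᶜ} = Sᶜ := by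
        ext x; simp
      rw [this]; exact h2
    choose ec hec he using hCS _ hZ h0
    refine ⟨fun k => ec k (fun _ => fun m => ⟨0, sz_pos m⟩), fun k => ⟨(he k _).1, ?_⟩⟩
    have hsub : Sᶜ ⊆ unI (ec k (fun _ => fun m => ⟨0, sz_pos m⟩)) := by
      intro x hx
      apply (he k _).2
      simpa using hx
    refine le_antisymm prob_le_one ?_
    have h3 : muR Sᶜ = 1 := (prob_compl_eq_one_iff hS).2 h1
    rw [← h3]
    exact measure_mono hsub
  unfold witC
  rw [dif_pos hex]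
  exact hex.choose_spec

/-- The data of the countable hull together with the generic point. -/
structure HullProp (io : Cond Ix → B) (dr : Set ℕ → ℝ) (de : Set ℕ → ℕ → ℚ × ℚ)
    (H : Set (Obj B)) (g : Pt Ix) : Prop where
  cnt : H.Countable
  om_mem : Obj.nm (om B) ∈ H
  nn_mem : ∀ n, Obj.nm (nn B n) ∈ H
  fm_mem : ∀ φ, Obj.fm φ ∈ H
  nt_mem : ∀ n, Obj.nt n ∈ H
  mu_mem : Obj.sf (fun _ => measS muR) ∈ H
  w_mem : Obj.sf (fun _ => coverS witC) ∈ H
  cl : ∀ i l, (∀ x ∈ l, x ∈ H) → oper io dr de i l ∈ H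
  meet : ∀ i l, (∀ x ∈ l, x ∈ H) → ∃ d, Obj.cd d ∈ H ∧ d ∈ task io i l ∧ g ∈ d.body

theorem exists_hull (hA3 : A3Stmt) (hH : HHStmt) (hR : ReadStmt) (hCov : CoverStmt)
    (hG : GplStmt) {io : Cond Ix → B} (hio : IsDenseEmb io) (dr : Set ℕ → ℝ)
    (de : Set ℕ → ℕ → ℚ × ℚ) : ∃ H g, HullProp io dr de H g := by
  obtain ⟨H, h1, h2, _, h3, g, _, h4⟩ := hG Ix (Obj B) Obj.cd Obj.ix
    (fun _ _ h => by cases h; rfl) (fun _ _ h => by cases h; rfl) (oper io dr de) (task io)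
    (task_open hio) (task_dense hA3 hH hR hCov hio) (Cond.one Ix)
    (({Obj.nm (om B), Obj.sf (fun _ => measS muR), Obj.sf (fun _ => coverS witC)} :
      Set (Obj B)) ∪
      ((Set.range fun n => Obj.nm (nn B n)) ∪ (Set.range Obj.fm ∪ Set.range Obj.nt)))
    ((((Set.countable_singleton _).insert _).insert _).union ((Set.countable_range _).union
      ((Set.countable_range _).union (Set.countable_range _))))
  refine ⟨H, g, h2, ?_, ?_, ?_, ?_, ?_, ?_, h3, h4⟩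
  · exact h1 (Or.inl (Or.inl rfl))
  · exact fun n => h1 (Or.inr (Or.inl ⟨n, rfl⟩))
  · exact fun φ => h1 (Or.inr (Or.inr (Or.inl ⟨φ, rfl⟩)))
  · exact fun n => h1 (Or.inr (Or.inr (Or.inr ⟨n, rfl⟩)))
  · exact h1 (Or.inl (Or.inr (Or.inl rfl)))
  · exact h1 (Or.inl (Or.inr (Or.inr rfl)))

/-- Conditions of the hull containing the generic point. -/
def CC (H : Set (Obj B)) (g : Pt Ix) : Set (Cond Ix) := {d | Obj.cd d ∈ H ∧ g ∈ d.body}

/-- True Boolean values. -/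
def GG (io : Cond Ix → B) (H : Set (Obj B)) (g : Pt Ix) : Set B := {b | ∃ d ∈ CC H g, io d ≤ b}

variable {io : Cond Ix → B} {dr : Set ℕ → ℝ} {de : Set ℕ → ℕ → ℚ × ℚ} {H : Set (Obj B)}
  {g : Pt Ix}

theorem mem2 {a b : Obj B} (ha : a ∈ H) (hb : b ∈ H) : ∀ x ∈ [a, b], x ∈ H := by
  intro x hx
  simp only [List.mem_cons, List.not_mem_nil, or_false] at hx
  rcases hx with rfl | rfl
  · exact ha
  · exact hb

theorem mem1 {a : Obj B} (ha : a ∈ H) : ∀ x ∈ [a], x ∈ H := by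
  intro x hx
  simp only [List.mem_cons, List.not_mem_nil, or_false] at hx
  rw [hx]; exact ha

theorem HullProp.cpt (h : HullProp io dr de H g) {d1 d2 : Cond Ix} (h1 : d1 ∈ CC H g)
    (h2 : d2 ∈ CC H g) : ∃ e ∈ CC H g, e ≤ d1 ∧ e ≤ d2 := by
  obtain ⟨e, he, ht, hg⟩ := h.meet 3 [.cd d1, .cd d2] (mem2 h1.1 h2.1)
  refine ⟨e, ⟨he, hg⟩, ?_⟩
  rcases ht with ht | ht | ht
  · exact ht
  · exact (ht hg h1.2).elim
  · exact (ht hg h2.2).elim

theorem HullProp.up (_h : HullProp io dr de H g) {b c : B} (hb : b ∈ GG io H g) (hbc : b ≤ c) :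
    c ∈ GG io H g := by
  obtain ⟨d, hd, hdb⟩ := hb
  exact ⟨d, hd, hdb.trans hbc⟩

theorem HullProp.inf (h : HullProp io dr de H g) (hio : IsDenseEmb io) {b c : B}
    (hb : b ∈ GG io H g) (hc : c ∈ GG io H g) : b ⊓ c ∈ GG io H g := by
  obtain ⟨d, hd, hdb⟩ := hb
  obtain ⟨e, he, hec⟩ := hc
  obtain ⟨r, hr, h1, h2⟩ := h.cpt hd he
  exact ⟨r, hr, le_inf ((hio.mono _ _ h1).trans hdb) ((hio.mono _ _ h2).trans hec)⟩

theorem HullProp.bot (_h : HullProp io dr de H g) (hio : IsDenseEmb io) : ⊥ ∉ GG io H g := by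
  rintro ⟨d, _, hd⟩
  exact hio.ne_bot d (le_bot_iff.1 hd)

theorem HullProp.not_both (h : HullProp io dr de H g) (hio : IsDenseEmb io) {b : B}
    (hb : b ∈ GG io H g) (hc : bᶜ ∈ GG io H g) : False := by
  apply h.bot hio
  have := h.inf hio hb hc
  rwa [inf_compl_self] at this

theorem HullProp.dec (h : HullProp io dr de H g) (φ : Fml) (s : ℕ → BSet B)
    (hs : ∀ i, Obj.nm (s i) ∈ H) : φ.val s ∈ GG io H g ∨ (φ.val s)ᶜ ∈ GG io H g := by
  have hl : ∀ x ∈ (Obj.fm φ :: lst s φ.bd), x ∈ H := by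
    intro x hx
    rcases List.mem_cons.1 hx with rfl | hx
    · exact h.fm_mem φ
    · obtain ⟨i, rfl⟩ := mem_lst hx
      exact hs i
  obtain ⟨d, hd, ht, hg⟩ := h.meet 0 (Obj.fm φ :: lst s φ.bd) hl
  rw [val_asg]
  rcases ht with ht | ht
  · exact Or.inl ⟨d, ⟨hd, hg⟩, ht⟩
  · exact Or.inr ⟨d, ⟨hd, hg⟩, ht⟩

theorem HullProp.wit (h : HullProp io dr de H g) (hio : IsDenseEmb io) (φ : Fml)
    (s : ℕ → BSet B) (i : ℕ) (hs : ∀ i, Obj.nm (s i) ∈ H)
    (hsup : (⨆ a : BSet B, φ.val (Function.update s i a)) ∈ GG io H g) :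
    ∃ a, Obj.nm a ∈ H ∧ φ.val (Function.update s i a) ∈ GG io H g := by
  have hl0 : ∀ x ∈ lst s φ.bd, x ∈ H := by
    intro x hx
    obtain ⟨i, rfl⟩ := mem_lst hx
    exact hs i
  have hl : ∀ x ∈ (Obj.fm φ :: Obj.nt i :: lst s φ.bd), x ∈ H := by
    intro x hx
    rcases List.mem_cons.1 hx with rfl | hx
    · exact h.fm_mem φ
    rcases List.mem_cons.1 hx with rfl | hx
    · exact h.nt_mem i
    · exact hl0 x hx
  obtain ⟨d, hd, ht, hg⟩ := h.meet 1 (Obj.fm φ :: Obj.nt i :: lst s φ.bd) hl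
  have hsup' : (⨆ a : BSet B, φ.val (Function.update (asg (lst s φ.bd)) i a)) ∈ GG io H g := by
    simpa only [val_asg_update φ s i] using hsup
  rcases ht with ht | ht
  · exact (h.not_both hio hsup' ⟨d, ⟨hd, hg⟩, ht⟩).elim
  · have hcl := h.cl 3 (Obj.cd d :: Obj.fm φ :: Obj.nt i :: lst s φ.bd) (by
      intro x hx
      rcases List.mem_cons.1 hx with rfl | hx
      · exact hd
      · exact hl x hx)
    have : oper io dr de 3 (Obj.cd d :: Obj.fm φ :: Obj.nt i :: lst s φ.bd) =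
        Obj.nm ht.choose := by
      simp only [oper, dif_pos ht]
    rw [this] at hcl
    refine ⟨_, hcl, ?_⟩
    rw [val_asg_update]
    exact ⟨d, ⟨hd, hg⟩, ht.choose_spec⟩

theorem HullProp.std (h : HullProp io dr de H g) (hio : IsDenseEmb io) {a : BSet B}
    (ha : Obj.nm a ∈ H) (hm : bmem a (om B) ∈ GG io H g) : ∃ n, beq a (nn B n) ∈ GG io H g := by
  obtain ⟨d, hd, ht, hg⟩ := h.meet 2 [.nm a] (mem1 ha)
  rcases ht with ht | ⟨n, ht⟩
  · exact (h.not_both hio hm ⟨d, ⟨hd, hg⟩, ht⟩).elim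
  · exact ⟨n, d, ⟨hd, hg⟩, ht⟩

/-- Evaluation of measurable sets at the generic point. -/
theorem HullProp.eval (h : HullProp io dr de H g) {A : Set (Pt Ix)} (hA : MeasurableSet A)
    (hm : Obj.ms A ∈ H) (hg : g ∈ A) : ∃ d ∈ CC H g, d.body ⊆ A := by
  obtain ⟨d, hd, ht, hgd⟩ := h.meet 4 [.ms A] (mem1 hm)
  rcases ht hA with ht | ht
  · exact ⟨d, ⟨hd, hgd⟩, ht⟩
  · exact (ht hgd hg).elim

theorem HullProp.hh_iff (h : HullProp io dr de H g) (hH : HHStmt) (hio : IsDenseEmb io)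
    {A : Set (Pt Ix)} (hA : MeasurableSet A) (hm : Obj.ms A ∈ H) :
    hh io A ∈ GG io H g ↔ g ∈ A := by
  obtain ⟨h1, h2, h3, h4, h5, h6, h7, h8, h9, h10⟩ := hH B io hio
  constructor
  · intro hG
    obtain ⟨d, hd, ht, hgd⟩ := h.meet 4 [.ms A] (mem1 hm)
    rcases ht hA with ht | ht
    · exact ht hgd
    · exfalso
      apply h.not_both hio hG
      refine ⟨d, ⟨hd, hgd⟩, ?_⟩
      rw [← h3 A hA]
      exact h1 d _ ht
  · intro hg
    obtain ⟨d, hd, ht⟩ := h.eval hA hm hg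
    exact ⟨d, hd, h1 d A ht⟩

end

end Pool.Agent.FL
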