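import Pool.Agent.Helper93_FL.Final

/-!
# Final assembly, part 3: reals of the model
-/

open MeasureTheory Set

namespace Pool.Agent.FL

theorem num_unique {M : Type*} {E : M → M → Prop} (hZ : IsZFC E) (n : ℕ) :
    ∀ x x', IsNum E n x → IsNum E n x' → x = x' := by
  induction n with
  | zero =>
    intro x x' h h'
    apply hZ.ext
    intro c
    exact ⟨fun hc => (h c hc).elim, fun hc => (h' c hc).elim⟩
  | succ n ih =>
    intro x x' h h'
    obtain ⟨y, hy, h1⟩ := h
    obtain ⟨y', hy', h2⟩ := h'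
    have := ih y y' hy hy'
    subst this
    apply hZ.ext
    intro c
    rw [h1, h2]

section
variable {B : Type} [CompleteBooleanAlgebra B] {io : Cond Ix → B} {dr : Set ℕ → ℝ}
  {de : Set ℕ → ℕ → ℚ × ℚ} {H : Set (Obj B)} {g : Pt Ix}

/-- The model obtained from the hull. -/
structure ModelProp (io : Cond Ix → B) (H : Set (Obj B)) (g : Pt Ix) {M : Type}
    (E : M → M → Prop) (π : BSet B → M) : Prop where
  zfc : IsZFC E
  std : OmegaStd E
  surj : ∀ m : M, ∃ a, Obj.nm a ∈ H ∧ π a = m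
  eqi : ∀ a b, Obj.nm a ∈ H → Obj.nm b ∈ H → (π a = π b ↔ beq a b ∈ GG io H g)
  memi : ∀ a b, Obj.nm a ∈ H → Obj.nm b ∈ H → (E (π a) (π b) ↔ bmem a b ∈ GG io H g)
  num : ∀ n, IsNum E n (π (nn B n))

theorem exists_model' (hM : ModelStatement) (hio : IsDenseEmb io) (h : HullProp io dr de H g) :
    ∃ (M : Type) (E : M → M → Prop) (π : BSet B → M), ModelProp io H g E π := by
  have hinj : Function.Injective (Obj.nm : BSet B → Obj B) := fun _ _ h => by cases h; rfl
  have hcnt : {a : BSet B | Obj.nm a ∈ H}.Countable := h.cnt.preimage hinj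
  obtain ⟨M, E, π, h1, h2, h3, h4, h5, h6⟩ := hM B {a | Obj.nm a ∈ H} (GG io H g) hcnt h.om_mem
    h.nn_mem (fun b hb c hbc => h.up hb hbc) (fun b hb c hc => h.inf hio hb hc) (h.bot hio)
    (fun φ s hs => h.dec φ s hs) (fun φ s i hs hsup => h.wit hio φ s i hs hsup)
    (fun a ha hm => h.std hio ha hm)
  exact ⟨M, E, π, h1, h2, h3, fun a b ha hb => h4 a ha b hb, fun a b ha hb => h5 a ha b hb, h6⟩

variable {M : Type} {E : M → M → Prop} {π : BSet B → M}

theorem ModelProp.codes_unique (m : ModelProp io H g E π) {a : M} {S S' : Set ℕ}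
    (h : Codes E a S) (h' : Codes E a S') : S = S' := by
  ext n
  rw [← h.2 n _ (m.num n), ← h'.2 n _ (m.num n)]

theorem ModelProp.codes_codeN (m : ModelProp io H g E π) (h : HullProp io dr de H g) (hA1 : A1Stmt)
    (hA3 : A3Stmt) (hH : HHStmt) (hio : IsDenseEmb io) {S : Pt Ix → Set ℕ} (hS : Measurable S)
    (hSm : Obj.sf S ∈ H) : Obj.nm (codeN io S) ∈ H ∧ Codes E (π (codeN io S)) (S g) := by
  have hc : Obj.nm (codeN io S) ∈ H := h.cl 0 [.sf S] (mem1 hSm)
  refine ⟨hc, ?_, ?_⟩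
  · intro x hx
    obtain ⟨a, ha, rfl⟩ := m.surj x
    rw [m.memi _ _ ha hc] at hx
    have h5 := (hA3 B).2.2.2.2
    have hom : bmem a (om B) ∈ GG io H g := by
      refine h.up hx ?_
      have e1 : bmem a (om B) = ⨆ n, ⊤ ⊓ beq a (nn B n) := h5 _ a
      have e2 : bmem a (codeN io S) = ⨆ n, hh io {y | n ∈ S y} ⊓ beq a (nn B n) := h5 _ a
      rw [e1, e2]
      exact iSup_mono fun n => inf_le_inf_right _ le_top
    obtain ⟨n, hn⟩ := h.std hio ha hom
    rw [← m.eqi _ _ ha (h.nn_mem n)] at hn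
    exact ⟨n, by rw [hn]; exact m.num n⟩
  · intro n x hx
    have hx' : x = π (nn B n) := num_unique m.zfc n _ _ hx (m.num n)
    subst hx'
    rw [m.memi _ _ (h.nn_mem n) hc]
    have e2 : bmem (nn B n) (codeN io S) = hh io {y | n ∈ S y} := (hA3 B).2.2.2.1 _ n
    rw [e2]
    have hmeas : MeasurableSet {y | n ∈ S y} := hS (measurableSet_setOfPred.2 (measurable_set_mem n))
    rw [h.hh_iff hH hio hmeas (h.cl 7 [.sf S, .nt n] (mem2 hSm (h.nt_mem n)))]
    rfl

theorem ModelProp.read (m : ModelProp io H g E π) (h : HullProp io dr de H g) (hA1 : A1Stmt)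
    (hA3 : A3Stmt) (hH : HHStmt) (hio : IsDenseEmb io) {a : BSet B} (ha : Obj.nm a ∈ H)
    {S0 : Set ℕ} (hc : Codes E (π a) S0) :
    ∃ S, Obj.sf S ∈ H ∧ Measurable S ∧ S g = S0 ∧ ∃ e ∈ CC H g, io e ≤ beq a (codeN io S) := by
  obtain ⟨e, he, ht, hg⟩ := h.meet 5 [.nm a] (mem1 ha)
  rcases ht with ht | ht
  · have hcl := h.cl 4 [.cd e, .nm a] (mem2 he ha)
    have : oper io dr de 4 [.cd e, .nm a] = Obj.sf ht.choose := by
      simp only [oper, dif_pos ht]
    rw [this] at hcl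
    obtain ⟨hS1, hS2⟩ := ht.choose_spec
    obtain ⟨hc1, hc2⟩ := m.codes_codeN h hA1 hA3 hH hio hS1 hcl
    refine ⟨_, hcl, hS1, ?_, e, ⟨he, hg⟩, hS2⟩
    have heq : π a = π (codeN io ht.choose) := (m.eqi _ _ ha hc1).2 ⟨e, ⟨he, hg⟩, hS2⟩
    rw [heq] at hc
    exact m.codes_unique hc2 hc
  · exfalso
    -- the formula every element of a is a natural number
    let φ : Fml := .all 0 (.imp (.mem 0 1) (.mem 0 2))
    let s : ℕ → BSet B := fun i => if i = 1 then a else om B
    have hs : ∀ i, Obj.nm (s i) ∈ H := by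
      intro i
      simp only [s]
      split_ifs
      · exact ha
      · exact h.om_mem
    have hφ : φ.val s = subOm a := by
      simp [φ, s, Fml.val, subOm]
    have hsub : (subOm a)ᶜ ∈ GG io H g := ⟨e, ⟨he, hg⟩, ht⟩
    -- witness
    let ψ : Fml := .imp (.imp (.mem 0 1) (.mem 0 2)) .bot
    have hψ : ∀ x : BSet B, ψ.val (Function.update s 0 x) = (bmem x a ⇨ bmem x (om B))ᶜ := by
      intro x
      simp [ψ, s, Fml.val, himp_bot]
    have hsup : (⨆ x : BSet B, ψ.val (Function.update s 0 x)) ∈ GG io H g := by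
      simp only [hψ]
      rw [← compl_iInf]
      exact hsub
    obtain ⟨x, hx, hxG⟩ := h.wit hio ψ s 0 hs hsup
    rw [hψ] at hxG
    -- `x ∈ a` is true
    have h1 : bmem x a ∈ GG io H g := by
      refine h.up hxG ?_
      rw [himp_eq, compl_sup, compl_compl]
      exact inf_le_right
    have h2 : (bmem x (om B))ᶜ ∈ GG io H g := by
      refine h.up hxG ?_
      rw [himp_eq, compl_sup]
      exact inf_le_left
    rw [← m.memi _ _ hx ha] at h1
    obtain ⟨n, hn⟩ := hc.1 _ h1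
    have hx' : π x = π (nn B n) := num_unique m.zfc n _ _ hn (m.num n)
    rw [m.eqi _ _ hx (h.nn_mem n)] at hx'
    have h3 : bmem x (om B) ∈ GG io H g := by
      refine h.up hx' ?_
      have e1 : bmem x (om B) = ⨆ n, ⊤ ⊓ beq x (nn B n) := (hA3 B).2.2.2.2 _ x
      rw [e1]
      exact le_iSup_of_le n (by simp)
    exact h.not_both hio h3 h2

end

end Pool.Agent.FL
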