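import Pool.Agent.Helper93_FL.CDefs

/-!
# The final statement
-/

open MeasureTheory Set

namespace Pool.Agent.FL

universe v

/-- The final statement. -/
def FinalStmt : Prop :=
  ∃ (M : Type) (E : M → M → Prop), IsZFC E ∧ OmegaStd E ∧
    ∃ μ : Measure ℝ, IsProbabilityMeasure μ ∧ (∀ x, μ {x} = 0) ∧ μ ⟂ₘ (volume : Measure ℝ) ∧
      (∃ a, Codes E a (measS μ)) ∧
      (∃ c : ℕ → ℕ → ℚ × ℚ, (∃ a, Codes E a (coverS c)) ∧ SingW μ c) ∧
      ∀ A : M, IsRealSet E A → PosOuter E volume (realsOf E A) →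
        ∃ t : ℝ, (∃ a, Codes E a (cutS t)) ∧ PosOuter E μ ((fun r => r + t) '' realsOf E A)

end Pool.Agent.FL
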