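import Pool.Agent.Helper93_FL.BDefs

/-!
# Formulas: countability, dependence on finitely many variables
-/

namespace Pool.Agent.FL

/-- A bound for the variables of a formula. -/
def Fml.bd : Fml → ℕ
  | .mem i j => max i j + 1
  | .eq i j => max i j + 1
  | .bot => 0
  | .imp φ ψ => max φ.bd ψ.bd
  | .all _ φ => φ.bd

theorem Fml.val_congr {B : Type} [CompleteBooleanAlgebra B] (φ : Fml) :
    ∀ s s' : ℕ → BSet B, (∀ i < φ.bd, s i = s' i) → φ.val s = φ.val s' := by
  induction φ with
  | mem i j =>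
    intro s s' h
    simp only [Fml.bd] at h
    simp only [Fml.val]
    rw [h i (by omega), h j (by omega)]
  | eq i j =>
    intro s s' h
    simp only [Fml.bd] at h
    simp only [Fml.val]
    rw [h i (by omega), h j (by omega)]
  | bot => intro s s' _; rfl
  | imp φ ψ ih1 ih2 =>
    intro s s' h
    simp only [Fml.bd] at h
    simp only [Fml.val]
    rw [ih1 s s' (fun i hi => h i (by omega)), ih2 s s' (fun i hi => h i (by omega))]
  | all i φ ih =>
    intro s s' h
    simp only [Fml.val]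
    congr 1
    funext a
    apply ih
    intro j hj
    by_cases hji : j = i
    · subst hji; simp
    · rw [Function.update_of_ne hji, Function.update_of_ne hji]
      exact h j hj

/-- Decoding of formulas with fuel. -/
def fdec : ℕ → ℕ → Fml
  | 0, _ => .bot
  | k + 1, n =>
    let a := (Nat.unpair n).1
    let r := (Nat.unpair n).2
    let x := (Nat.unpair r).1
    let y := (Nat.unpair r).2
    if a = 0 then .mem x y else if a = 1 then .eq x y else if a = 2 then .bot else
    if a = 3 then .imp (fdec k x) (fdec k y) else .all x (fdec k y)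

theorem fdec_surj (φ : Fml) : ∃ n k0, ∀ k, k0 ≤ k → fdec k n = φ := by
  induction φ with
  | mem i j =>
    refine ⟨Nat.pair 0 (Nat.pair i j), 1, fun k hk => ?_⟩
    obtain ⟨k, rfl⟩ := Nat.exists_eq_add_of_le' hk
    simp [fdec]
  | eq i j =>
    refine ⟨Nat.pair 1 (Nat.pair i j), 1, fun k hk => ?_⟩
    obtain ⟨k, rfl⟩ := Nat.exists_eq_add_of_le' hk
    simp [fdec]
  | bot =>
    refine ⟨Nat.pair 2 0, 1, fun k hk => ?_⟩
    obtain ⟨k, rfl⟩ := Nat.exists_eq_add_of_le' hk
    simp [fdec]
  | imp φ ψ ih1 ih2 =>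
    obtain ⟨n1, k1, h1⟩ := ih1
    obtain ⟨n2, k2, h2⟩ := ih2
    refine ⟨Nat.pair 3 (Nat.pair n1 n2), max k1 k2 + 1, fun k hk => ?_⟩
    obtain ⟨k, rfl⟩ := Nat.exists_eq_add_of_le' (le_trans (by omega : 1 ≤ _) hk)
    simp [fdec, h1 k (by omega), h2 k (by omega)]
  | all i φ ih =>
    obtain ⟨n1, k1, h1⟩ := ih
    refine ⟨Nat.pair 4 (Nat.pair i n1), k1 + 1, fun k hk => ?_⟩
    obtain ⟨k, rfl⟩ := Nat.exists_eq_add_of_le' (le_trans (by omega : 1 ≤ _) hk)
    simp [fdec, h1 k (by omega)]

instance : Countable Fml := by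
  have : Function.Surjective (fun x : ℕ × ℕ => fdec x.1 x.2) := by
    intro φ
    obtain ⟨n, k, h⟩ := fdec_surj φ
    exact ⟨(k, n), h k le_rfl⟩
  exact this.countable

end Pool.Agent.FL
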