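import Pool.Agent.Helper93_FL.FinalDefs
import Pool.Agent.Helper93_FL.FmlFacts

/-!
# Final assembly, part 1: objects, operations, dense sets
-/

open MeasureTheory Set

namespace Pool.Agent.FL

/-- Objects entering the countable hull. -/
inductive Obj (B : Type) : Type 1
  | nm (a : BSet B) : Obj B
  | cd (p : Cond Ix) : Obj B
  | ix (i : Ix) : Obj B
  | sf (S : Pt Ix → Set ℕ) : Obj B
  | rf (f : Pt Ix → ℝ) : Obj B
  | ef (e : Pt Ix → ℕ → ℚ × ℚ) : Obj B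
  | zs (Z : Set (Pt Ix × ℝ)) : Obj B
  | ms (A : Set (Pt Ix)) : Obj B
  | fm (φ : Fml) : Obj B
  | nt (n : ℕ) : Obj B

section
variable {B : Type} [CompleteBooleanAlgebra B]

/-- The assignment given by a list of objects. -/
noncomputable def asg (l : List (Obj B)) : ℕ → BSet B := fun i =>
  match l[i]? with
  | some (.nm a) => a
  | _ => om B

/-- `e` forces that the set named by `a` is not null. -/
def NNp (io : Cond Ix → B) (a : BSet B) (e : Cond Ix) : Prop :=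
  ∀ p' ≤ e, ∀ Z : Set (Pt Ix × ℝ), MeasurableSet Z → (∀ y, volume {x | (y, x) ∈ Z} = 0) →
    ∃ q ≤ p', ∃ f : Pt Ix → ℝ, Measurable f ∧ relA io a q f ∧ ∀ y ∈ q.body, (y, f y) ∉ Z

/-- `e` forces that the set named by `a` is contained in the null set `Z`. -/
def ZZp (io : Cond Ix → B) (a : BSet B) (e : Cond Ix) (Z : Set (Pt Ix × ℝ)) : Prop :=
  MeasurableSet Z ∧ (∀ y, volume {x | (y, x) ∈ Z} = 0) ∧
    ∀ q ≤ e, ∀ f : Pt Ix → ℝ, Measurable f → relA io a q f → ¬ ∀ y ∈ q.body, (y, f y) ∉ Z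

/-- Conclusion of `CTStmt`. -/
def CTp (io : Cond Ix → B) (a : BSet B) (e : Cond Ix) (α : Ix) : Prop :=
  ∀ p' ≤ e, ∀ N : Set (Pt Ix × ℝ), MeasurableSet N → (∀ y, muR {x | (y, x) ∈ N} = 0) →
    ∃ q ≤ p', ∃ f : Pt Ix → ℝ, Measurable f ∧ relA io a q f ∧
      ∃ c : ℚ, ∀ y ∈ q.body, (y, f y + DrB (y α) + c) ∉ N

/-- A real in the set named by `a` whose translate is outside of the intervals `ec`. -/
def Hit (io : Cond Ix → B) (a : BSet B) (α : Ix) (c : ℚ) (ec : Pt Ix → ℕ → ℚ × ℚ) (d : Cond Ix)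
    (f : Pt Ix → ℝ) : Prop :=
  Measurable f ∧ relA io a d f ∧ ∀ y ∈ d.body, f y + DrB (y α) + c ∉ unI (ec y)

def Alt1 (io : Cond Ix → B) (a : BSet B) (α : Ix) (e : Cond Ix) (c : ℚ) (k : ℕ) : Prop :=
  ∀ q ≤ e, ∀ ec : Pt Ix → ℕ → ℚ × ℚ, Measurable ec →
    (∀ y, sumI muR (ec y) ≤ (1 / 2) ^ k) → ∃ q' ≤ q, ∃ f, Hit io a α c ec q' f

def Alt2 (io : Cond Ix → B) (a : BSet B) (α : Ix) (e : Cond Ix) : Prop :=
  ∃ N : Set (Pt Ix × ℝ), MeasurableSet N ∧ (∀ y, muR {x | (y, x) ∈ N} = 0) ∧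
    ∀ q ≤ e, ∀ f : Pt Ix → ℝ, Measurable f → relA io a q f →
      ∀ c : ℚ, ¬ ∀ y ∈ q.body, (y, f y + DrB (y α) + c) ∉ N

/-- `a` is a set of natural numbers. -/
noncomputable def subOm (a : BSet B) : B := ⨅ x : BSet B, (bmem x a ⇨ bmem x (om B))

/-- The dense sets. -/
noncomputable def task (io : Cond Ix → B) : ℕ → List (Obj B) → Set (Cond Ix)
  | 0, .fm φ :: l => {d | io d ≤ φ.val (asg l) ∨ io d ≤ (φ.val (asg l))ᶜ}
  | 1, .fm φ :: .nt i :: l => {d | io d ≤ (⨆ a : BSet B, φ.val (Function.update (asg l) i a))ᶜ ∨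
      ∃ a : BSet B, io d ≤ φ.val (Function.update (asg l) i a)}
  | 2, [.nm a] => {d | io d ≤ (bmem a (om B))ᶜ ∨ ∃ n, io d ≤ beq a (nn B n)}
  | 3, [.cd d1, .cd d2] => {e | (e ≤ d1 ∧ e ≤ d2) ∨ e.body ⊆ d1.bodyᶜ ∨ e.body ⊆ d2.bodyᶜ}
  | 4, [.ms A] => {d | MeasurableSet A → d.body ⊆ A ∨ d.body ⊆ Aᶜ}
  | 5, [.nm a] => {e | (∃ S : Pt Ix → Set ℕ, Measurable S ∧ io e ≤ beq a (codeN io S)) ∨
      io e ≤ (subOm a)ᶜ}
  | 6, [.nm a] => {e | NNp io a e ∨ ∃ Z, ZZp io a e Z}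
  | 7, [.nm a, .ix α] => {e | (∃ c k, Alt1 io a α e c k) ∨ Alt2 io a α e}
  | 8, [.nm a, .ix α, .nt c, .ef ec] => {d | (∃ f, Hit io a α (qe c) ec d f) ∨
      ∀ q ≤ d, ¬ ∃ f, Hit io a α (qe c) ec q f}
  | _, _ => Set.univ

open Classical in
/-- The operations of the hull. -/
noncomputable def oper (io : Cond Ix → B) (dr : Set ℕ → ℝ) (de : Set ℕ → ℕ → ℚ × ℚ) :
    ℕ → List (Obj B) → Obj B
  | 0, [.sf S] => .nm (codeN io S)
  | 1, [.rf f] => .sf (fun y => cutS (f y))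
  | 2, [.ef e] => .sf (fun y => grS (e y))
  | 3, .cd d :: .fm φ :: .nt i :: l =>
    if h : ∃ a : BSet B, io d ≤ φ.val (Function.update (asg l) i a) then .nm h.choose else .nt 0
  | 4, [.cd e, .nm a] =>
    if h : ∃ S : Pt Ix → Set ℕ, Measurable S ∧ io e ≤ beq a (codeN io S) then .sf h.choose
    else .nt 0
  | 5, [.sf S] => .rf (fun y => dr (S y))
  | 6, [.sf S] => .ef (fun y => de (S y))
  | 7, [.sf S, .nt n] => .ms {y | n ∈ S y}
  | 8, [.sf S] => .ms {y | S y = cutS (dr (S y))}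
  | 9, [.sf S] => .ms {y | S y = grS (de (S y))}
  | 10, [.cd e, .nm a] => if h : ∃ Z, ZZp io a e Z then .zs h.choose else .nt 0
  | 11, [.cd e, .nm a] => if h : ∃ α, CTp io a e α then .ix h.choose else .nt 0
  | 12, [.zs Z, .nt k] =>
    if h : ∃ ec : Pt Ix → ℕ → ℚ × ℚ, Measurable ec ∧ ∀ y, sumI volume (ec y) ≤ (1 / 2) ^ k ∧
      {x | (y, x) ∈ Z} ⊆ unI (ec y) then .ef h.choose else .nt 0
  | 13, [.zs Z, .rf f] => .ms {y | (y, f y) ∈ Z}
  | 14, [.ix α, .nt c] => .rf (fun y => DrB (y α) + qe c)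
  | 15, [.ef ec, .nt k] =>
    .ef (fun y => if sumI muR (ec y) ≤ (1 / 2) ^ k then ec y else fun _ => (0, 0))
  | 16, [.cd d, .nm a, .ix α, .nt c, .ef ec] =>
    if h : ∃ f, Hit io a α (qe c) ec d f then .rf h.choose else .nt 0
  | _, _ => .nt 0

/-! ### The tasks are open and dense -/

theorem relA_mono {io : Cond Ix → B} (hio : IsDenseEmb io) {a : BSet B} {p q : Cond Ix}
    {f : Pt Ix → ℝ} (h : q ≤ p) (hp : relA io a p f) : relA io a q f :=
  (hio.mono _ _ h).trans hp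

theorem task_open {io : Cond Ix → B} (hio : IsDenseEmb io) (i : ℕ) (l : List (Obj B)) :
    ∀ d ∈ task io i l, ∀ e ≤ d, e ∈ task io i l := by
  intro d hd e he
  have hm := hio.mono _ _ he
  unfold task at hd ⊢
  split at hd
  · rcases hd with hd | hd
    · exact Or.inl (hm.trans hd)
    · exact Or.inr (hm.trans hd)
  · rcases hd with hd | ⟨a, hd⟩
    · exact Or.inl (hm.trans hd)
    · exact Or.inr ⟨a, hm.trans hd⟩
  · rcases hd with hd | ⟨a, hd⟩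
    · exact Or.inl (hm.trans hd)
    · exact Or.inr ⟨a, hm.trans hd⟩
  · rcases hd with ⟨h1, h2⟩ | hd | hd
    · exact Or.inl ⟨he.trans h1, he.trans h2⟩
    · exact Or.inr (Or.inl (Set.Subset.trans he hd))
    · exact Or.inr (Or.inr (Set.Subset.trans he hd))
  · intro hA
    rcases hd hA with hd | hd
    · exact Or.inl (Set.Subset.trans he hd)
    · exact Or.inr (Set.Subset.trans he hd)
  · rcases hd with ⟨S, hS, hd⟩ | hd
    · exact Or.inl ⟨S, hS, hm.trans hd⟩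
    · exact Or.inr (hm.trans hd)
  · rcases hd with hd | ⟨Z, h1, h2, hd⟩
    · exact Or.inl fun p' hp' => hd p' (hp'.trans he)
    · exact Or.inr ⟨Z, h1, h2, fun q hq => hd q (hq.trans he)⟩
  · rcases hd with ⟨c, k, hd⟩ | ⟨N, h1, h2, hd⟩
    · exact Or.inl ⟨c, k, fun q hq => hd q (hq.trans he)⟩
    · exact Or.inr ⟨N, h1, h2, fun q hq => hd q (hq.trans he)⟩
  · rcases hd with ⟨f, h1, h2, h3⟩ | hd
    · exact Or.inl ⟨f, h1, relA_mono hio he h2, fun y hy => h3 y (he hy)⟩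
    · exact Or.inr fun q hq => hd q (hq.trans he)
  · exact Set.mem_univ _

theorem dense_iSup {io : Cond Ix → B} (hio : IsDenseEmb io) {ι : Sort*} (f : ι → B) {d : Cond Ix}
    (hle : io d ≤ ⨆ j, f j) : ∃ e ≤ d, ∃ j, io e ≤ f j := by
  have hne : (⨆ j, f j) ⊓ io d ≠ ⊥ := by
    rw [inf_eq_right.2 hle]
    exact hio.ne_bot d
  rw [iSup_inf_eq] at hne
  have : ∃ j, f j ⊓ io d ≠ ⊥ := by
    by_contra hcon
    push Not at hcon
    exact hne (iSup_eq_bot.2 hcon)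
  obtain ⟨j, hj⟩ := this
  obtain ⟨e, he, hej⟩ := hio.dense _ _ hj
  exact ⟨e, he, j, hej⟩

theorem task_dense (hA3 : A3Stmt) (hH : HHStmt) (hR : ReadStmt) (hCov : CoverStmt)
    {io : Cond Ix → B} (hio : IsDenseEmb io) (i : ℕ) (l : List (Obj B)) :
    ∀ q, ∃ d ∈ task io i l, d ≤ q := by
  obtain ⟨h1, h2, h3, h4, h5, h6, h7, h8, h9, h10⟩ := hH B io hio
  intro q
  unfold task
  split
  · obtain ⟨d, hd, h⟩ := h6 q _
    exact ⟨d, h, hd⟩
  · rename_i φ i l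
    by_cases h : ∃ d ≤ q, ∃ a : BSet B, io d ≤ φ.val (Function.update (asg l) i a)
    · obtain ⟨d, hd, a, ha⟩ := h
      exact ⟨d, Or.inr ⟨a, ha⟩, hd⟩
    · refine ⟨q, Or.inl ?_, le_rfl⟩
      push Not at h
      rw [h5]
      intro d hd hle
      obtain ⟨e, he, a, hea⟩ := dense_iSup hio _ hle
      exact h e (he.trans hd) a hea
  · rename_i a
    obtain ⟨d, hd, h⟩ := h6 q (bmem a (om B))
    rcases h with h | h
    · have h11 := (hA3 B).2.2.2.2 (fun _ => ⊤) a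
      change bmem a (om B) = _ at h11
      rw [h11] at h
      obtain ⟨e, he, n, hn⟩ := dense_iSup hio _ h
      exact ⟨e, Or.inr ⟨n, hn.trans inf_le_right⟩, he.trans hd⟩
    · exact ⟨d, Or.inl h, hd⟩
  · rename_i d1 d2
    obtain ⟨e, he, h⟩ := h8 q d1.body d1.measurableSet_body
    obtain ⟨e', he', h'⟩ := h8 e d2.body d2.measurableSet_body
    rcases h with h | h
    · rcases h' with h' | h'
      · exact ⟨e', Or.inl ⟨Set.Subset.trans he' h, h'⟩, he'.trans he⟩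
      · exact ⟨e', Or.inr (Or.inr h'), he'.trans he⟩
    · exact ⟨e, Or.inr (Or.inl h), he⟩
  · rename_i A
    by_cases hA : MeasurableSet A
    · obtain ⟨e, he, h⟩ := h8 q A hA
      exact ⟨e, fun _ => h, he⟩
    · exact ⟨q, fun h => (hA h).elim, le_rfl⟩
  · rename_i a
    obtain ⟨e, he, h⟩ := hR B io hio a q
    exact ⟨e, h, he⟩
  · rename_i a
    by_cases h : NNp io a q
    · exact ⟨q, Or.inl h, le_rfl⟩
    · unfold NNp at h
      push Not at h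
      obtain ⟨p', hp', Z, hZ, hZ0, h⟩ := h
      refine ⟨p', Or.inr ⟨Z, hZ, hZ0, ?_⟩, hp'⟩
      intro r hr f hf hrel hcon
      obtain ⟨y, hy, hyZ⟩ := h r hr f hf hrel
      exact hcon y hy hyZ
  · rename_i a α
    obtain ⟨e, he, h⟩ := hCov B io hio a α q
    refine ⟨e, ?_, he⟩
    rcases h with ⟨c, k, h⟩ | h
    · exact Or.inl ⟨c, k, h⟩
    · exact Or.inr h
  · rename_i a α c ec
    by_cases h : ∃ q' ≤ q, ∃ f, Hit io a α (qe c) ec q' f
    · obtain ⟨q', hq', f, hf⟩ := h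
      exact ⟨q', Or.inl ⟨f, hf⟩, hq'⟩
    · refine ⟨q, Or.inr ?_, le_rfl⟩
      intro r hr hf
      exact h ⟨r, hr, hf⟩
  · exact ⟨q, Set.mem_univ _, le_rfl⟩

end

end Pool.Agent.FL
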